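import Mathlib

/-!
# Two lemmas of complex analysis
-/

open Finset Filter Topology

namespace Pool.Agent.R667.LA

/-- `γ` is the sequence of coefficients of a power series which converges to `c` on the closed
unit disc. -/
def PS (γ : ℕ → ℂ) (c : ℂ → ℂ) : Prop :=
  ∀ z : ℂ, ‖z‖ ≤ 1 → Tendsto (fun J => ∑ j ∈ range J, γ j * z ^ j) atTop (𝓝 (c z))

theorem PS.bounded {γ : ℕ → ℂ} {c : ℂ → ℂ} (h : PS γ c) : ∃ B : ℝ, 0 ≤ B ∧ ∀ j, ‖γ j‖ ≤ B := by
  have h1 := h 1 (by simp)
  simp only [one_pow, mul_one] at h1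
  have h2 : Tendsto γ atTop (𝓝 0) := by
    have h3 := (h1.comp (tendsto_add_atTop_nat 1)).sub h1
    rw [sub_self] at h3
    refine h3.congr fun n => ?_
    simp [sum_range_succ]
  obtain ⟨B, hB⟩ := h2.norm.bddAbove_range
  exact ⟨max B 0, le_max_right _ _, fun j => (hB ⟨j, rfl⟩).trans (le_max_left _ _)⟩

theorem PS.eq_tsum {γ : ℕ → ℂ} {c : ℂ → ℂ} (h : PS γ c) {z : ℂ} (hz : ‖z‖ < 1) :
    c z = ∑' j, γ j * z ^ j := by
  obtain ⟨B, hB0, hB⟩ := h.bounded
  have hs : Summable fun j => γ j * z ^ j := by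
    refine Summable.of_norm_bounded (g := fun j => B * ‖z‖ ^ j)
      ((summable_geometric_of_lt_one (norm_nonneg _) hz).mul_left B) fun j => ?_
    rw [norm_mul, norm_pow]
    exact mul_le_mul_of_nonneg_right (hB j) (by positivity)
  exact tendsto_nhds_unique (h z hz.le) hs.hasSum.tendsto_sum_nat

theorem PS.differentiableOn {γ : ℕ → ℂ} {c : ℂ → ℂ} (h : PS γ c) :
    DifferentiableOn ℂ c (Metric.ball 0 1) := by
  obtain ⟨B, hB0, hB⟩ := h.bounded
  have h1 : DifferentiableOn ℂ (fun z => ∑' j, γ j * z ^ j) (Metric.ball 0 1) := by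
    intro z hz
    rw [mem_ball_zero_iff] at hz
    obtain ⟨r, hr1, hr2⟩ := exists_between hz
    have h2 : DifferentiableOn ℂ (fun z => ∑' j, γ j * z ^ j) (Metric.ball 0 r) := by
      refine Complex.differentiableOn_tsum_of_summable_norm (u := fun j => B * r ^ j)
        ((summable_geometric_of_lt_one ((norm_nonneg _).trans hr1.le) hr2).mul_left B)
        (fun j => by fun_prop) Metric.isOpen_ball ?_
      intro j w hw
      rw [mem_ball_zero_iff] at hw
      rw [norm_mul, norm_pow]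
      exact mul_le_mul (hB j) (pow_le_pow_left₀ (norm_nonneg _) hw.le j) (by positivity) hB0
    exact ((h2 z (mem_ball_zero_iff.2 hr1)).differentiableAt
      (Metric.isOpen_ball.mem_nhds (mem_ball_zero_iff.2 hr1))).differentiableWithinAt
  refine h1.congr fun z hz => ?_
  exact h.eq_tsum (mem_ball_zero_iff.1 hz)

theorem PS.abel {γ : ℕ → ℂ} {c : ℂ → ℂ} (h : PS γ c) :
    Tendsto (fun x : ℝ => c x) (𝓝[<] 1) (𝓝 (c 1)) := by
  have h1 := h 1 (by simp)
  simp only [one_pow, mul_one] at h1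
  have h2 := Complex.tendsto_tsum_powerSeries_nhdsWithin_lt h1
  rw [tendsto_map'_iff] at h2
  refine h2.congr' ?_
  have : ∀ᶠ x : ℝ in 𝓝[<] 1, x ∈ Set.Ioo (0 : ℝ) 1 := Ioo_mem_nhdsLT (by norm_num)
  filter_upwards [this] with x hx
  have hx' : ‖(x : ℂ)‖ < 1 := by
    rw [Complex.norm_real, Real.norm_eq_abs, abs_of_pos hx.1]
    exact hx.2
  exact (h.eq_tsum hx').symm

theorem PS.neg {γ : ℕ → ℂ} {c : ℂ → ℂ} (h : PS γ c) :
    PS (fun j => γ j * (-1) ^ j) (fun z => c (-z)) := by
  intro z hz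
  refine (h (-z) (by simpa using hz)).congr fun J => ?_
  refine sum_congr rfl fun j _ => ?_
  rw [neg_pow]
  ring

theorem PS.conj {γ : ℕ → ℂ} {c : ℂ → ℂ} (h : PS γ c) :
    PS (fun j => (starRingEnd ℂ) (γ j)) (fun z => (starRingEnd ℂ) (c ((starRingEnd ℂ) z))) := by
  intro z hz
  have h1 := h ((starRingEnd ℂ) z) (by simpa using hz)
  have h2 := (Complex.continuous_conj.tendsto _).comp h1
  refine h2.congr fun J => ?_
  simp [map_sum]

/-- A power series that is real on some interval `(1 - δ, 1)` has a real value at `-1`. -/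
theorem PS.real_neg_one {γ : ℕ → ℂ} {c : ℂ → ℂ} (h : PS γ c)
    (hreal : ∀ᶠ x : ℝ in 𝓝[<] 1, (starRingEnd ℂ) (c x) = c x) :
    (starRingEnd ℂ) (c (-1)) = c (-1) := by
  have h1 : AnalyticOnNhd ℂ c (Metric.ball 0 1) :=
    h.differentiableOn.analyticOnNhd Metric.isOpen_ball
  have h2 : AnalyticOnNhd ℂ (fun z => (starRingEnd ℂ) (c ((starRingEnd ℂ) z)))
      (Metric.ball 0 1) := h.conj.differentiableOn.analyticOnNhd Metric.isOpen_ball
  rw [eventually_nhdsWithin_iff, Metric.eventually_nhds_iff] at hreal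
  obtain ⟨δ, hδ, hreal⟩ := hreal
  set ε := min δ 1 / 2 with hε
  have hε0 : 0 < ε := by positivity
  have hεδ : ε < δ := by
    have : min δ 1 ≤ δ := min_le_left _ _
    have : 0 < min δ 1 := lt_min hδ one_pos
    rw [hε]; linarith
  have hε1 : ε ≤ 1 / 2 := by
    have : min δ 1 ≤ 1 := min_le_right _ _
    rw [hε]; linarith
  have hz0 : ((1 - ε : ℝ) : ℂ) ∈ Metric.ball (0 : ℂ) 1 := by
    rw [mem_ball_zero_iff, Complex.norm_real, Real.norm_eq_abs, abs_of_nonneg (by linarith)]
    linarith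
  have hfreq : ∃ᶠ z in 𝓝[≠] ((1 - ε : ℝ) : ℂ), c z = (starRingEnd ℂ) (c ((starRingEnd ℂ) z)) := by
    have h3 : Tendsto (fun x : ℝ => (x : ℂ)) (𝓝[≠] (1 - ε)) (𝓝[≠] ((1 - ε : ℝ) : ℂ)) := by
      refine tendsto_nhdsWithin_of_tendsto_nhds_of_eventually_within _
        ((Complex.continuous_ofReal.tendsto _).mono_left nhdsWithin_le_nhds) ?_
      filter_upwards [self_mem_nhdsWithin] with x hx
      intro h4
      exact hx (Complex.ofReal_injective h4)
    refine h3.frequently ?_
    refine Filter.Eventually.frequently ?_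
    have h4 : ∀ᶠ x : ℝ in 𝓝 (1 - ε), x ∈ Set.Ioo (1 - δ) 1 :=
      Ioo_mem_nhds (by linarith) (by linarith)
    filter_upwards [nhdsWithin_le_nhds h4] with x hx
    rw [Complex.conj_ofReal]
    refine (hreal ?_ hx.2).symm
    rw [Real.dist_eq, abs_lt]
    constructor <;> linarith [hx.1, hx.2]
  have heq := h1.eqOn_of_preconnected_of_frequently_eq h2
    (convex_ball (0 : ℂ) 1).isPreconnected hz0 hfreq
  have h5 : ∀ x : ℝ, |x| < 1 → (starRingEnd ℂ) (c x) = c x := by
    intro x hx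
    have h6 := heq (show (x : ℂ) ∈ Metric.ball (0 : ℂ) 1 by
      rw [mem_ball_zero_iff, Complex.norm_real]; exact hx)
    dsimp only at h6
    rw [Complex.conj_ofReal] at h6
    exact h6.symm
  have h6 := h.neg.abel
  have h7 := (Complex.continuous_conj.tendsto _).comp h6
  refine tendsto_nhds_unique_of_eventuallyEq h7 h6 ?_
  have : ∀ᶠ x : ℝ in 𝓝[<] 1, x ∈ Set.Ioo (0 : ℝ) 1 := Ioo_mem_nhdsLT (by norm_num)
  filter_upwards [this] with x hx
  have h8 := h5 (-x) (by rw [abs_neg, abs_of_pos hx.1]; exact hx.2)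
  push_cast at h8
  exact h8

/-- Zeros of the factors of an infinite product are zeros of its limit. -/
theorem zero_of_product {F : ℂ → ℂ} (hF : Differentiable ℂ F) (hF1 : F 1 ≠ 0) {c d : ℕ → ℂ}
    (hd : Summable fun k => ‖d k‖) (hd0 : ∀ k, d k ≠ 0)
    (hlim : ∀ y : ℂ, ‖y‖ ≤ 1 → Tendsto (fun K => ∏ k ∈ range K, (c k + d k * y)) atTop (𝓝 (F y)))
    (k : ℕ) : F (-c k / d k) = 0 := by
  set b : ℕ → ℂ := fun k => c k + d k with hb
  have hlim1 : Tendsto (fun K => ∏ k ∈ range K, b k) atTop (𝓝 (F 1)) := by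
    have := hlim 1 (by simp)
    simpa [hb] using this
  have hb0 : ∀ k, b k ≠ 0 := by
    intro k hk
    refine hF1 (tendsto_nhds_unique hlim1 ?_)
    refine tendsto_const_nhds.congr' ?_
    filter_upwards [eventually_gt_atTop k] with K hK
    exact (prod_eq_zero (mem_range.2 hK) hk).symm
  have hprod0 : ∀ K, ∏ k ∈ range K, b k ≠ 0 := fun K => prod_ne_zero_iff.2 fun k _ => hb0 k
  have hb1 : Tendsto b atTop (𝓝 1) := by
    have h1 := (hlim1.comp (tendsto_add_atTop_nat 1)).div hlim1 hF1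
    rw [div_self hF1] at h1
    refine h1.congr fun K => ?_
    simp only [Function.comp, Pi.div_apply, prod_range_succ]
    rw [mul_div_assoc, mul_comm, div_mul_cancel₀ _ (hprod0 K)]
  set r : ℕ → ℂ := fun k => d k / b k with hr
  have hrs : Summable fun k => ‖r k‖ := by
    refine Summable.of_norm_bounded_eventually_nat (g := fun k => 2 * ‖d k‖) (hd.mul_left 2) ?_
    have h1 : ∀ᶠ k in atTop, (1 : ℝ) / 2 < ‖b k‖ :=
      (hb1.norm).eventually (lt_mem_nhds (by simp; norm_num))
    filter_upwards [h1] with k hk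
    rw [norm_norm, hr]
    dsimp only
    rw [norm_div, div_le_iff₀ (by linarith)]
    nlinarith [norm_nonneg (d k)]
  -- the entire function
  set E : ℂ → ℂ := fun y => ∏' k, (1 + r k * (y - 1)) with hE
  have hloc : ∀ R : ℝ, HasProdLocallyUniformlyOn (fun k y => 1 + r k * (y - 1)) E
      (Metric.ball (0 : ℂ) R) := by
    intro R
    refine Summable.hasProdLocallyUniformlyOn_nat_one_add (u := fun k => ‖r k‖ * (R + 1))
      Metric.isOpen_ball (hrs.mul_right _) (Eventually.of_forall fun k y hy => ?_)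
      (fun k => by fun_prop)
    rw [norm_mul]
    refine mul_le_mul_of_nonneg_left ?_ (norm_nonneg _)
    rw [mem_ball_zero_iff] at hy
    refine (norm_sub_le _ _).trans ?_
    rw [norm_one]
    linarith
  have hEdiff : Differentiable ℂ E := by
    intro y
    have h1 := hloc (‖y‖ + 1)
    have h2 : DifferentiableOn ℂ E (Metric.ball (0 : ℂ) (‖y‖ + 1)) := by
      rw [hasProdLocallyUniformlyOn_iff_tendstoLocallyUniformlyOn] at h1
      refine h1.differentiableOn (Eventually.of_forall fun s => ?_) Metric.isOpen_ball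
      fun_prop
    have hy : y ∈ Metric.ball (0 : ℂ) (‖y‖ + 1) := by
      rw [mem_ball_zero_iff]; linarith
    exact (h2 y hy).differentiableAt (Metric.isOpen_ball.mem_nhds hy)
  have hEprod : ∀ y, Tendsto (fun K => ∏ k ∈ range K, (1 + r k * (y - 1))) atTop (𝓝 (E y)) := by
    intro y
    have h1 := (hloc (‖y‖ + 1)).hasProd (x := y) (by rw [mem_ball_zero_iff]; linarith)
    exact h1.tendsto_prod_nat
  have hfac : ∀ y k, 1 + r k * (y - 1) = (c k + d k * y) / b k := by
    intro y k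
    rw [hr, eq_div_iff (hb0 k)]
    dsimp only
    rw [add_mul, one_mul, mul_assoc, mul_comm (y - 1), ← mul_assoc, div_mul_cancel₀ _ (hb0 k), hb]
    ring
  have hEF : ∀ y : ℂ, ‖y‖ ≤ 1 → F y = F 1 * E y := by
    intro y hy
    have h1 : Tendsto (fun K => ∏ k ∈ range K, (1 + r k * (y - 1))) atTop (𝓝 (F y / F 1)) := by
      refine ((hlim y hy).div hlim1 hF1).congr fun K => ?_
      simp only [Pi.div_apply]
      rw [← prod_div_distrib]
      exact prod_congr rfl fun k _ => (hfac y k).symm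
    rw [tendsto_nhds_unique (hEprod y) h1]
    field_simp
  have hall : F = fun y => F 1 * E y := by
    have hA : AnalyticOnNhd ℂ F Set.univ := hF.differentiableOn.analyticOnNhd isOpen_univ
    have hB : AnalyticOnNhd ℂ (fun y => F 1 * E y) Set.univ :=
      (hEdiff.const_mul (F 1)).differentiableOn.analyticOnNhd isOpen_univ
    refine hA.eq_of_eventuallyEq hB (z₀ := 0) ?_
    filter_upwards [Metric.ball_mem_nhds (0 : ℂ) one_pos] with y hy
    exact hEF y (mem_ball_zero_iff.1 hy).le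
  have hE0 : E (-c k / d k) = 0 := by
    refine tendsto_nhds_unique (hEprod _) ?_
    refine tendsto_const_nhds.congr' ?_
    filter_upwards [eventually_gt_atTop k] with K hK
    refine (prod_eq_zero (mem_range.2 hK) ?_).symm
    rw [hfac, mul_div_cancel₀ _ (hd0 k), add_neg_cancel, zero_div]
  rw [hall]
  dsimp only
  rw [hE0, mul_zero]

end Pool.Agent.R667.LA
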