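import Pool.Agent.R667.LA.Tail

/-!
# The numerical certificate
-/

open Finset Filter Topology

namespace Pool.Agent.R667.LA

/-- rational version of the transition operator for `ρ = 9/10`, `q = 1/2` -/
def KQ (f : ℕ → ℕ → ℚ) (n l : ℕ) : ℚ :=
  ∑ e ∈ range 2, ∑ m ∈ range (l + e + 1),
    ((if e = 1 then 9 / 10 else 1 / 10) * ((l + e).choose m / 2 ^ (l + e))) *
      f (n + m - (if 0 < n then 1 else 0)) (l + e - m)

/-- table look-up -/
def tab (U : List (List ℤ)) (n l : ℕ) : ℚ :=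
  if n + l ≤ 6 then ((U.getD (n + l) []).getD n 0 : ℚ) / 10000 else 0

def U1 : List (List ℤ) := [[5212],[2965,-14788],[-2151,-7035,9757],[-600,-7151,-408,-16722],
  [-3724,-3100,985,-6048,10213],[-1402,-4974,-3297,-7272,-235,-16498],
  [28,-2027,-1028,-2769,1204,-5834,10429]]

def U2 : List (List ℤ) := [[5951],[3722,-14049],[-1338,-6278,10496],[-3953,-1338,3423,-13468],
  [-3896,1047,-1522,-6288,10594],[-2582,1104,-3857,-1288,3477,-13406],
  [-130,-82,-3854,1104,-1465,-6229,10653]]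

def U3 : List (List ℤ) := [[6437],[6453,6437],[12464,-3547,-1745],[4194,2464,14234,11315],
  [7028,-806,5899,-5309,-2299],[453,7028,9927,2978,14172,11164],
  [-1153,2953,1563,-1211,5742,-5451,-2443]]

/-- real parts of `((1 + i) / 2) ^ l`, `l ≤ 6` -/
def reL : List ℚ := [1, 1 / 2, 0, -1 / 4, -1 / 4, -1 / 8, 0]
/-- imaginary parts of `((1 + i) / 2) ^ l`, `l ≤ 6` -/
def imL : List ℚ := [0, 1 / 2, 1 / 2, 1 / 4, 0, -1 / 8, -1 / 8]
/-- `2 ^ -l`, `l ≤ 6` -/
def poL : List ℚ := [1, 1 / 2, 1 / 4, 1 / 8, 1 / 16, 1 / 32, 1 / 64]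

def sgn (n : ℕ) : ℚ := if n % 2 = 0 then 1 else -1

def chk (L : List ℚ) (U : List (List ℤ)) (c : ℚ) : Prop :=
  ∀ n < 7, ∀ l < 7, n + l ≤ 6 → |sgn n * L.getD l 0 - c - tab U n l + KQ (tab U) n l| ≤ 8 / 100000

instance (L : List ℚ) (U : List (List ℤ)) (c : ℚ) : Decidable (chk L U c) := by
  unfold chk; infer_instance

theorem chk1 : chk poL U1 (-43 / 40000) := by decide +kernel
theorem chk2 : chk reL U2 (-293 / 1000000) := by decide +kernel
theorem chk3 : chk imL U3 (143 / 200000) := by decide +kernel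

def bd (U : List (List ℤ)) : Prop := ∀ n < 7, ∀ l < 7, |tab U n l| ≤ 17 / 10

instance (U : List (List ℤ)) : Decidable (bd U) := by unfold bd; infer_instance

theorem bd1 : bd U1 := by decide +kernel
theorem bd2 : bd U2 := by decide +kernel
theorem bd3 : bd U3 := by decide +kernel

theorem KK_tab (U : List (List ℤ)) (n l : ℕ) :
    KK (9 / 10) (1 / 2) (fun s => (tab U s.1 s.2 : ℝ)) (n, l) = (KQ (tab U) n l : ℝ) := by
  unfold KK KQ
  push_cast
  refine sum_congr rfl fun e _ => sum_congr rfl fun m hm => ?_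
  have hm' : m ≤ l + e := by
    have := mem_range.1 hm
    omega
  unfold weight nextState
  dsimp only
  have h : (1 - 1 / 2 : ℝ) ^ m * (1 / 2) ^ (l + e - m) = 1 / 2 ^ (l + e) := by
    have h1 : (1 - 1 / 2 : ℝ) = 1 / 2 := by norm_num
    rw [h1, ← pow_add, Nat.add_sub_cancel' hm', one_div_pow]
  rw [smul_eq_mul, mul_assoc ((l + e).choose m : ℝ), h]
  by_cases he : e = 1
  · simp only [he, if_true]
    push_cast
    ring
  · simp only [he, if_false]
    push_cast
    ring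

theorem tab_bd {U : List (List ℤ)} (h : bd U) (s : ℕ × ℕ) : |(tab U s.1 s.2 : ℝ)| ≤ 17 / 10 := by
  by_cases h6 : s.1 + s.2 ≤ 6
  · have h1 := h s.1 (by omega) s.2 (by omega)
    have h2 : ((|tab U s.1 s.2| : ℚ) : ℝ) ≤ ((17 / 10 : ℚ) : ℝ) := by exact_mod_cast h1
    push_cast at h2
    exact h2
  · unfold tab
    rw [if_neg h6]
    norm_num

theorem tab_zero (U : List (List ℤ)) (s : ℕ × ℕ) (h : 7 ≤ s.1 + s.2) :
    (tab U s.1 s.2 : ℝ) = 0 := by
  unfold tab
  rw [if_neg (by omega)]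
  norm_num

/-- Result of the certificates. -/
theorem value {π : ℕ × ℕ → ℝ} (hπ : IsStationary (9 / 10) (1 / 2) π) {L : List ℚ}
    {U : List (List ℤ)} {c : ℚ} (hc : chk L U c) (hb : bd U) (a : ℕ → ℝ) (ha : ∀ l, |a l| ≤ 1)
    (haL : ∀ l < 7, a l = (L.getD l 0 : ℝ)) (hcb : |c| ≤ 1 / 100) :
    |∑' s : ℕ × ℕ, π s * ((-1) ^ s.1 * a s.2) - c| ≤ 104 / 10 ^ 6 := by
  have h := certificate hπ (h := fun s => (-1) ^ s.1 * a s.2) (u := fun s => (tab U s.1 s.2 : ℝ))
    (c := c) (B := 17 / 10) (δ := 8 / 100000) (fun s => by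
      rw [abs_mul, abs_pow, abs_neg, abs_one, one_pow, one_mul]
      exact ha _) (tab_bd hb) (tab_zero U) (by norm_num) (by
      rintro ⟨n, l⟩ hs
      dsimp only at hs ⊢
      have h1 := hc n (by omega) l (by omega) hs
      have h2 : ((|sgn n * L.getD l 0 - c - tab U n l + KQ (tab U) n l| : ℚ) : ℝ) ≤
          ((8 / 100000 : ℚ) : ℝ) := by exact_mod_cast h1
      push_cast at h2
      rw [KK_tab, haL l (by omega)]
      have h3 : ((sgn n : ℚ) : ℝ) = (-1) ^ n := by
        unfold sgn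
        split_ifs with h0
        · rw [(Nat.even_iff.2 h0).neg_one_pow]; norm_num
        · rw [(Nat.odd_iff.2 (by omega)).neg_one_pow]; norm_num
      rw [h3] at h2
      exact h2)
  have hcb' : |(c : ℝ)| ≤ 1 / 100 := by
    have : ((|c| : ℚ) : ℝ) ≤ ((1 / 100 : ℚ) : ℝ) := by exact_mod_cast hcb
    push_cast at this
    exact this
  refine h.trans ?_
  nlinarith

end Pool.Agent.R667.LA
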