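import Mathlib

/-!
# The queue with late arrivals: definitions, test functions, moments
-/

open Finset Filter Topology

namespace Pool.Agent.R667.LA

/-- The next state `(n', l')` from the state `s = (n, l)`, when `e ∈ {0, 1}` customers are
scheduled and `m` of the `l + e` late customers arrive. -/
def nextState (s : ℕ × ℕ) (e m : ℕ) : ℕ × ℕ :=
  (s.1 + m - (if 0 < s.1 then 1 else 0), s.2 + e - m)

/-- The probability that `e` customers are scheduled and `m` of the `l + e` late customers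
arrive. -/
noncomputable def weight (ρ q : ℝ) (l e m : ℕ) : ℝ :=
  (if e = 1 then ρ else 1 - ρ) * (((l + e).choose m : ℝ) * (1 - q) ^ m * q ^ (l + e - m))

/-- The transition probabilities of the chain `(n_t, l_t)`. -/
noncomputable def trans (ρ q : ℝ) (s t : ℕ × ℕ) : ℝ :=
  ∑ e ∈ range 2, ∑ m ∈ range (s.2 + e + 1),
    weight ρ q s.2 e m * (if t = nextState s e m then 1 else 0)

/-- `π` is a stationary distribution of the chain. -/
structure IsStationary (ρ q : ℝ) (π : ℕ × ℕ → ℝ) : Prop where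
  nonneg : ∀ s, 0 ≤ π s
  total : HasSum π 1
  stat : ∀ t, HasSum (fun s => π s * trans ρ q s t) (π t)

/-- The generating function `P(z, y) = ∑ π(n, l) z^n y^l`. -/
noncomputable def genFun (π : ℕ × ℕ → ℝ) (z y : ℂ) : ℂ :=
  ∑' s : ℕ × ℕ, (π s : ℂ) * z ^ s.1 * y ^ s.2

/-- `P(z, y) = ∏_{k ≥ 0} (1 + ρ q^{k+1} (y - z) + q^k ∑_{j ≥ 1} β_{k,j} (z^j - 1))` for all
`|z|, |y| ≤ 1`, for some complex numbers `β_{k,j}` that do not depend on `z`, `y`: all the inner
series converge (with sums `S k`), and the partial products converge to `P(z, y)`. -/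
def HasProductForm (ρ q : ℝ) (π : ℕ × ℕ → ℝ) : Prop :=
  ∃ β : ℕ → ℕ → ℂ, ∀ z y : ℂ, ‖z‖ ≤ 1 → ‖y‖ ≤ 1 → ∃ S : ℕ → ℂ,
    (∀ k, Tendsto (fun J => ∑ j ∈ range J, β k (j + 1) * (z ^ (j + 1) - 1)) atTop (𝓝 (S k))) ∧
    Tendsto (fun K => ∏ k ∈ range K, (1 + ρ * q ^ (k + 1) * (y - z) + q ^ k * S k)) atTop
      (𝓝 (genFun π z y))

/-- The transition operator. -/
noncomputable def KK {E : Type*} [AddCommGroup E] [Module ℝ E] (ρ q : ℝ) (f : ℕ × ℕ → E)
    (s : ℕ × ℕ) : E :=
  ∑ e ∈ range 2, ∑ m ∈ range (s.2 + e + 1), weight ρ q s.2 e m • f (nextState s e m)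

section
variable {E : Type*} [NormedAddCommGroup E] [NormedSpace ℝ E] {ρ q : ℝ}

theorem weight_nonneg (hρ0 : 0 ≤ ρ) (hρ1 : ρ ≤ 1) (hq0 : 0 ≤ q) (hq1 : q ≤ 1) (l e m : ℕ) :
    0 ≤ weight ρ q l e m := by
  unfold weight
  have h1 : 0 ≤ 1 - q := by linarith
  have h2 : (0 : ℝ) ≤ if e = 1 then ρ else 1 - ρ := by split_ifs <;> linarith
  positivity

theorem trans_nonneg (hρ0 : 0 ≤ ρ) (hρ1 : ρ ≤ 1) (hq0 : 0 ≤ q) (hq1 : q ≤ 1) (s t : ℕ × ℕ) :
    0 ≤ trans ρ q s t := by
  refine sum_nonneg fun e _ => sum_nonneg fun m _ => mul_nonneg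
    (weight_nonneg hρ0 hρ1 hq0 hq1 _ _ _) ?_
  split_ifs <;> norm_num

theorem hasSum_KK (f : ℕ × ℕ → E) (s : ℕ × ℕ) :
    HasSum (fun t => trans ρ q s t • f t) (KK ρ q f s) := by
  have h : (fun t => trans ρ q s t • f t) = fun t => ∑ e ∈ range 2, ∑ m ∈ range (s.2 + e + 1),
      (weight ρ q s.2 e m * (if t = nextState s e m then 1 else 0)) • f t := by
    funext t
    unfold trans
    rw [sum_smul]
    exact sum_congr rfl fun e _ => by rw [sum_smul]
  rw [h]
  refine hasSum_sum fun e _ => hasSum_sum fun m _ => ?_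
  have h2 := hasSum_single (f := fun t => (weight ρ q s.2 e m *
    (if t = nextState s e m then (1 : ℝ) else 0)) • f t) (nextState s e m) (by
      intro t ht; simp [ht])
  simpa using h2

/-- Stationarity for test functions. -/
theorem IsStationary.test [CompleteSpace E] (hρ0 : 0 ≤ ρ) (hρ1 : ρ ≤ 1) (hq0 : 0 ≤ q)
    (hq1 : q ≤ 1) {π : ℕ × ℕ → ℝ} (hπ : IsStationary ρ q π) (f : ℕ × ℕ → E)
    (hf : Summable fun s => π s * ‖f s‖) :
    Summable (fun s => π s • KK ρ q f s) ∧
      ∑' s, π s • KK ρ q f s = ∑' s, π s • f s := by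
  set g : (ℕ × ℕ) × (ℕ × ℕ) → E := fun p => (π p.2 * trans ρ q p.2 p.1) • f p.1 with hg
  have hT := trans_nonneg (ρ := ρ) (q := q) hρ0 hρ1 hq0 hq1
  have hnorm : ∀ t s, ‖g (t, s)‖ = π s * trans ρ q s t * ‖f t‖ := by
    intro t s
    rw [hg, norm_smul, Real.norm_eq_abs, abs_of_nonneg (mul_nonneg (hπ.nonneg _) (hT _ _))]
  have h1 : ∀ t, HasSum (fun s => ‖g (t, s)‖) (π t * ‖f t‖) := by
    intro t
    simp_rw [hnorm]
    exact (hπ.stat t).mul_right _
  have hsum : Summable g := by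
    refine Summable.of_norm ?_
    rw [summable_prod_of_nonneg (fun _ => norm_nonneg _)]
    refine ⟨fun t => (h1 t).summable, ?_⟩
    simp_rw [fun t => (h1 t).tsum_eq]
    exact hf
  have h2 : ∀ t, ∑' s, g (t, s) = π t • f t := by
    intro t
    have := (hπ.stat t).smul_const (f t)
    exact this.tsum_eq
  have h3 : ∀ s, HasSum (fun t => g (t, s)) (π s • KK ρ q f s) := by
    intro s
    have := (hasSum_KK (ρ := ρ) (q := q) f s).const_smul (π s)
    refine this.congr_fun ?_ |> fun h => h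
    intro t
    simp only [hg, smul_smul]
  have hsum' : Summable fun p : (ℕ × ℕ) × (ℕ × ℕ) => g (p.2, p.1) :=
    (Equiv.prodComm _ _).summable_iff.2 hsum
  have h4 : Summable fun s => ∑' t, g (t, s) := hsum'.prod
  refine ⟨?_, ?_⟩
  · simp_rw [fun s => (h3 s).tsum_eq] at h4
    exact h4
  · have h5 : ∑' s, ∑' t, g (t, s) = ∑' t, ∑' s, g (t, s) :=
      Summable.tsum_comm (f := fun t s => g (t, s)) hsum
    simp_rw [fun s => (h3 s).tsum_eq, h2] at h5
    exact h5

/-- One step, for functions of the second coordinate: `y ^ l`. -/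
theorem KK_pow (y : ℂ) (s : ℕ × ℕ) :
    KK ρ q (fun s => y ^ s.2) s = (1 + ρ * q * (y - 1)) * (1 + q * (y - 1)) ^ s.2 := by
  have key : ∀ L : ℕ, ∑ m ∈ range (L + 1), ((L.choose m : ℝ) * (1 - q) ^ m * q ^ (L - m) : ℝ) •
      y ^ (L - m) = (1 + q * (y - 1)) ^ L := by
    intro L
    have h := add_pow ((1 - q : ℝ) : ℂ) (q * y) L
    have h2 : (1 + q * (y - 1) : ℂ) = ((1 - q : ℝ) : ℂ) + q * y := by push_cast; ring
    rw [h2, h]
    refine sum_congr rfl fun m _ => ?_
    rw [Complex.real_smul]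
    push_cast
    rw [mul_pow]
    ring
  unfold KK
  rw [sum_range_succ, sum_range_one]
  have e0 : ∑ m ∈ range (s.2 + 0 + 1), weight ρ q s.2 0 m • y ^ (nextState s 0 m).2 =
      (1 - ρ) * (1 + q * (y - 1)) ^ s.2 := by
    rw [← key s.2, mul_sum]
    refine sum_congr rfl fun m _ => ?_
    simp only [weight, nextState, add_zero, Complex.real_smul, zero_ne_one, if_false]
    push_cast
    ring
  have e1 : ∑ m ∈ range (s.2 + 1 + 1), weight ρ q s.2 1 m • y ^ (nextState s 1 m).2 =
      ρ * (1 + q * (y - 1)) ^ (s.2 + 1) := by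
    rw [← key (s.2 + 1), mul_sum]
    refine sum_congr rfl fun m _ => ?_
    simp only [weight, nextState, Complex.real_smul, if_true]
    push_cast
    ring
  rw [e0, e1, pow_succ]
  ring

theorem sum_weight (l : ℕ) (e : ℕ) : ∑ m ∈ range (l + e + 1), weight ρ q l e m =
    if e = 1 then ρ else 1 - ρ := by
  unfold weight
  rw [← mul_sum]
  have h := add_pow (1 - q) q (l + e)
  have h2 : ∑ m ∈ range (l + e + 1), ((l + e).choose m : ℝ) * (1 - q) ^ m * q ^ (l + e - m) = 1 := by
    have h3 : (1 - q + q) ^ (l + e) = 1 := by rw [sub_add_cancel, one_pow]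
    rw [h] at h3
    refine Eq.trans (sum_congr rfl fun m _ => ?_) h3
    ring
  rw [h2, mul_one]

/-- One step, for functions of `n + l`. -/
theorem KK_total (g : ℕ → ℝ) (s : ℕ × ℕ) :
    KK ρ q (fun s => g (s.1 + s.2)) s =
      (1 - ρ) * g (s.1 + s.2 - (if 0 < s.1 then 1 else 0)) +
        ρ * g (s.1 + s.2 + 1 - (if 0 < s.1 then 1 else 0)) := by
  unfold KK
  rw [sum_range_succ, sum_range_one]
  have key : ∀ e : ℕ, ∑ m ∈ range (s.2 + e + 1), weight ρ q s.2 e m •
      g ((nextState s e m).1 + (nextState s e m).2) = (if e = 1 then ρ else 1 - ρ) *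
        g (s.1 + s.2 + e - (if 0 < s.1 then 1 else 0)) := by
    intro e
    rw [← sum_weight (ρ := ρ) (q := q) s.2 e, sum_mul]
    refine sum_congr rfl fun m hm => ?_
    have hm' : m ≤ s.2 + e := by
      have := mem_range.1 hm
      omega
    have h : (nextState s e m).1 + (nextState s e m).2 =
        s.1 + s.2 + e - (if 0 < s.1 then 1 else 0) := by
      unfold nextState
      dsimp only
      split_ifs with h0 <;> omega
    rw [h, smul_eq_mul]
  have h0 := key 0
  have h1 := key 1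
  simp only [zero_ne_one, if_false, if_true] at h0 h1
  rw [h0, h1]
  simp

/-- One step, for the binomial coefficients `C(l, k)`. -/
theorem KK_choose (k : ℕ) (s : ℕ × ℕ) :
    KK ρ q (fun s => (s.2.choose (k + 1) : ℝ)) s =
      q ^ (k + 1) * ((s.2.choose (k + 1) : ℝ) + ρ * (s.2.choose k : ℝ)) := by
  have key : ∀ (L k : ℕ), ∑ m ∈ range (L + 1),
      ((L.choose m : ℝ) * (1 - q) ^ m * q ^ (L - m) : ℝ) * ((L - m).choose k : ℝ) =
        q ^ k * (L.choose k : ℝ) := by
    intro L k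
    have h : ((1 + Polynomial.X : Polynomial ℝ) ^ L).comp (Polynomial.C q * Polynomial.X) =
        ∑ m ∈ range (L + 1), Polynomial.C ((L.choose m : ℝ) * (1 - q) ^ m * q ^ (L - m)) *
          (1 + Polynomial.X : Polynomial ℝ) ^ (L - m) := by
      have h1 := add_pow (Polynomial.C (1 - q)) (Polynomial.C q * (1 + Polynomial.X)) L
      have h2 : (Polynomial.C (1 - q) + Polynomial.C q * (1 + Polynomial.X) : Polynomial ℝ) =
          1 + Polynomial.C q * Polynomial.X := by
        rw [Polynomial.C_sub, Polynomial.C_1]; ring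
      rw [h2] at h1
      have h3 : ((1 + Polynomial.X : Polynomial ℝ) ^ L).comp (Polynomial.C q * Polynomial.X) =
          (1 + Polynomial.C q * Polynomial.X) ^ L := by
        simp [Polynomial.pow_comp]
      rw [h3, h1]
      refine sum_congr rfl fun m _ => ?_
      simp only [Polynomial.C_mul, Polynomial.C_pow, map_natCast, mul_pow]
      ring
    have h2 := congrArg (fun p => Polynomial.coeff p k) h
    simp only [Polynomial.comp_C_mul_X_coeff, Polynomial.finsetSum_coeff,
      Polynomial.coeff_C_mul, Polynomial.coeff_one_add_X_pow] at h2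
    rw [← h2]
    ring
  unfold KK
  rw [sum_range_succ, sum_range_one]
  have e0 : ∑ m ∈ range (s.2 + 0 + 1), weight ρ q s.2 0 m •
      (((nextState s 0 m).2.choose (k + 1) : ℕ) : ℝ) =
      (1 - ρ) * (q ^ (k + 1) * (s.2.choose (k + 1) : ℝ)) := by
    rw [← key s.2 (k + 1), mul_sum]
    refine sum_congr rfl fun m _ => ?_
    simp only [weight, nextState, add_zero, smul_eq_mul, zero_ne_one, if_false]
    ring
  have e1 : ∑ m ∈ range (s.2 + 1 + 1), weight ρ q s.2 1 m •
      (((nextState s 1 m).2.choose (k + 1) : ℕ) : ℝ) =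
      ρ * (q ^ (k + 1) * ((s.2 + 1).choose (k + 1) : ℝ)) := by
    rw [← key (s.2 + 1) (k + 1), mul_sum]
    refine sum_congr rfl fun m _ => ?_
    simp only [weight, nextState, smul_eq_mul, if_true]
    ring
  rw [e0, e1, Nat.choose_succ_succ]
  push_cast
  ring

end

end Pool.Agent.R667.LA
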