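import Pool.Agent.R667.LA.Cert
import Pool.Agent.R667.LA.Ana

/-!
# The late-arrivals generating function has no product form for `ρ = 9/10`, `q = 1/2`
-/

open Finset Filter Topology

namespace Pool.Agent.R667.LA

variable {π : ℕ × ℕ → ℝ}

theorem expm (hπ : IsStationary (9 / 10) (1 / 2) π) (R : ℝ) (hR : 1 < R) :
    Summable fun s => π s * R ^ s.2 :=
  exp_moment (by norm_num) (by norm_num) (by norm_num) (by norm_num) hπ R hR

theorem norm_term (hπ : IsStationary (9 / 10) (1 / 2) π) {z y : ℂ} {R : ℝ} (hz : ‖z‖ ≤ 1)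
    (hy : ‖y‖ ≤ R) (s : ℕ × ℕ) : ‖(π s : ℂ) * z ^ s.1 * y ^ s.2‖ ≤ π s * R ^ s.2 := by
  rw [norm_mul, norm_mul, norm_pow, norm_pow, Complex.norm_real, Real.norm_eq_abs,
    abs_of_nonneg (hπ.nonneg s)]
  have h1 : ‖z‖ ^ s.1 ≤ 1 := pow_le_one₀ (norm_nonneg _) hz
  have h2 : ‖y‖ ^ s.2 ≤ R ^ s.2 := pow_le_pow_left₀ (norm_nonneg _) hy _
  have h3 := hπ.nonneg s
  have h4 : π s * ‖z‖ ^ s.1 ≤ π s := by nlinarith
  exact mul_le_mul h4 h2 (by positivity) h3

theorem summable_term (hπ : IsStationary (9 / 10) (1 / 2) π) {z y : ℂ} (hz : ‖z‖ ≤ 1) :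
    Summable fun s : ℕ × ℕ => (π s : ℂ) * z ^ s.1 * y ^ s.2 :=
  Summable.of_norm_bounded (expm hπ (‖y‖ + 2) (by have := norm_nonneg y; linarith))
    fun s => norm_term hπ hz (by linarith) s

/-! ### The two values -/

theorem value_half (hπ : IsStationary (9 / 10) (1 / 2) π) :
    971 / 10 ^ 6 ≤ ‖genFun π (-1) (1 / 2)‖ := by
  have h := value hπ chk1 bd1 (fun l => (1 / 2) ^ l) (fun l => by
    rw [abs_of_nonneg (by positivity)]
    exact pow_le_one₀ (by norm_num) (by norm_num)) (by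
      intro l hl
      interval_cases l <;> norm_num [poL]) (by norm_num [abs_le])
  have h2 : genFun π (-1) (1 / 2) = ((∑' s : ℕ × ℕ, π s * ((-1) ^ s.1 * (1 / 2) ^ s.2) : ℝ) : ℂ) := by
    unfold genFun
    rw [Complex.ofReal_tsum]
    refine tsum_congr fun s => ?_
    push_cast
    ring
  rw [h2, Complex.norm_real, Real.norm_eq_abs]
  rw [abs_le] at h
  push_cast at h
  have := neg_le_abs (∑' s : ℕ × ℕ, π s * ((-1) ^ s.1 * (1 / 2) ^ s.2))
  linarith [h.2]

/-- `w = (1 + i) / 2` -/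
noncomputable def ww : ℂ := (1 + Complex.I) / 2

theorem norm_ww : ‖ww‖ ≤ 1 := by
  unfold ww
  rw [norm_div]
  have h := norm_add_le (1 : ℂ) Complex.I
  rw [norm_one, Complex.norm_I] at h
  rw [div_le_one (by simp)]
  simpa using by linarith

theorem ww_pow (l : ℕ) (hl : l < 7) :
    ww ^ l = ⟨((reL.getD l 0 : ℚ) : ℝ), ((imL.getD l 0 : ℚ) : ℝ)⟩ := by
  have h2 : ww ^ 2 = Complex.I / 2 := by
    unfold ww
    rw [div_pow, add_sq, Complex.I_sq]
    ring
  have h : ∀ l, ww ^ (l + 2) = ww ^ l * (Complex.I / 2) := fun l => by rw [pow_add, h2]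
  have h0 : ww ^ 0 = 1 := pow_zero _
  have h1 : ww ^ 1 = (1 + Complex.I) / 2 := pow_one _
  have h3 : ww ^ 3 = _ := h 1
  have h4 : ww ^ 4 = _ := h 2
  have h5 : ww ^ 5 = _ := h 3
  have h6 : ww ^ 6 = _ := h 4
  rw [h1] at h3
  rw [h2] at h4
  rw [h3] at h5
  rw [h4] at h6
  interval_cases l
  · rw [h0]; apply Complex.ext <;> norm_num [reL, imL]
  · rw [h1]; apply Complex.ext <;> norm_num [reL, imL]
  · rw [h2]; apply Complex.ext <;> norm_num [reL, imL]
  · rw [h3]; apply Complex.ext <;> norm_num [reL, imL]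
  · rw [h4]; apply Complex.ext <;> norm_num [reL, imL]
  · rw [h5]; apply Complex.ext <;> norm_num [reL, imL]
  · rw [h6]; apply Complex.ext <;> norm_num [reL, imL]

theorem value_ww (hπ : IsStationary (9 / 10) (1 / 2) π) :
    ‖genFun π (-1) ww‖ < 971 / 10 ^ 6 := by
  have hw : ∀ l : ℕ, ‖ww ^ l‖ ≤ 1 := fun l => by
    rw [norm_pow]; exact pow_le_one₀ (norm_nonneg _) norm_ww
  have hre := value hπ chk2 bd2 (fun l => (ww ^ l).re)
    (fun l => (Complex.abs_re_le_norm _).trans (hw l)) (by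
      intro l hl
      rw [ww_pow l hl]) (by norm_num [abs_le])
  have him := value hπ chk3 bd3 (fun l => (ww ^ l).im)
    (fun l => (Complex.abs_im_le_norm _).trans (hw l)) (by
      intro l hl
      rw [ww_pow l hl]) (by norm_num [abs_le])
  have hs : Summable fun s : ℕ × ℕ => (π s : ℂ) * (-1) ^ s.1 * ww ^ s.2 :=
    summable_term hπ (by simp)
  have e : ∀ s : ℕ × ℕ, (π s : ℂ) * (-1) ^ s.1 * ww ^ s.2 =
      ((π s * (-1) ^ s.1 : ℝ) : ℂ) * ww ^ s.2 := fun s => by push_cast; ring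
  have h1 : (genFun π (-1) ww).re = ∑' s : ℕ × ℕ, π s * ((-1) ^ s.1 * (ww ^ s.2).re) := by
    unfold genFun
    rw [Complex.re_tsum hs]
    refine tsum_congr fun s => ?_
    rw [e, Complex.re_ofReal_mul]
    ring
  have h2 : (genFun π (-1) ww).im = ∑' s : ℕ × ℕ, π s * ((-1) ^ s.1 * (ww ^ s.2).im) := by
    unfold genFun
    rw [Complex.im_tsum hs]
    refine tsum_congr fun s => ?_
    rw [e, Complex.im_ofReal_mul]
    ring
  rw [← h1] at hre
  rw [← h2] at him
  rw [abs_le] at hre him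
  push_cast at hre him
  have h3 : ‖genFun π (-1) ww‖ ^ 2 < (971 / 10 ^ 6) ^ 2 := by
    rw [Complex.sq_norm, Complex.normSq_apply]
    nlinarith [hre.1, hre.2, him.1, him.2]
  exact lt_of_pow_lt_pow_left₀ 2 (by norm_num) h3

/-! ### Entire functions -/

theorem genFun_differentiable (hπ : IsStationary (9 / 10) (1 / 2) π) {z : ℂ} (hz : ‖z‖ ≤ 1) :
    Differentiable ℂ (genFun π z) := by
  intro y
  have h : DifferentiableOn ℂ (fun y => ∑' s : ℕ × ℕ, (π s : ℂ) * z ^ s.1 * y ^ s.2)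
      (Metric.ball 0 (‖y‖ + 2)) := by
    refine Complex.differentiableOn_tsum_of_summable_norm (u := fun s => π s * (‖y‖ + 2) ^ s.2)
      (expm hπ _ (by have := norm_nonneg y; linarith)) (fun s => by fun_prop)
      Metric.isOpen_ball ?_
    intro s w hw
    rw [mem_ball_zero_iff] at hw
    exact norm_term hπ hz hw.le s
  have hy : y ∈ Metric.ball (0 : ℂ) (‖y‖ + 2) := by rw [mem_ball_zero_iff]; linarith
  exact (h y hy).differentiableAt (Metric.isOpen_ball.mem_nhds hy)

/-- The functional equation of `G(y) = P(1, y)`. -/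
theorem funeq (hπ : IsStationary (9 / 10) (1 / 2) π) (y : ℂ) :
    genFun π 1 y = (1 + 9 / 20 * (y - 1)) * genFun π 1 (1 + (y - 1) / 2) := by
  have hnorm : Summable fun s => π s * ‖y ^ s.2‖ := by
    refine Summable.of_nonneg_of_le (fun s => mul_nonneg (hπ.nonneg s) (norm_nonneg _)) ?_
      (expm hπ (‖y‖ + 2) (by have := norm_nonneg y; linarith))
    intro s
    rw [norm_pow]
    refine mul_le_mul_of_nonneg_left ?_ (hπ.nonneg s)
    exact pow_le_pow_left₀ (norm_nonneg _) (by linarith) _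
  have h := (hπ.test (E := ℂ) (by norm_num) (by norm_num) (by norm_num) (by norm_num)
    (fun s => y ^ s.2) hnorm).2
  have e1 : genFun π 1 y = ∑' s, π s • y ^ s.2 := by
    unfold genFun
    refine tsum_congr fun s => ?_
    rw [Complex.real_smul, one_pow, mul_one]
  rw [e1, ← h]
  unfold genFun
  rw [← tsum_mul_left]
  refine tsum_congr fun s => ?_
  rw [KK_pow, Complex.real_smul]
  push_cast
  ring

/-- `H(t) = P(1, 1 + t)` -/
noncomputable def HH (π : ℕ × ℕ → ℝ) (t : ℂ) : ℂ := genFun π 1 (1 + t)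

/-- `d_k = ρ q^{k+1}` -/
noncomputable def dd (k : ℕ) : ℂ := 9 / 10 * (1 / 2) ^ (k + 1)

theorem dd_real (k : ℕ) : dd k = ((9 / 10 * (1 / 2) ^ (k + 1) : ℝ) : ℂ) := by
  unfold dd; push_cast; rfl

theorem dd_ne (k : ℕ) : dd k ≠ 0 :=
  mul_ne_zero (by norm_num) (pow_ne_zero _ (by norm_num))

theorem HH_iter (hπ : IsStationary (9 / 10) (1 / 2) π) (t : ℂ) (k : ℕ) :
    HH π t = (∏ j ∈ range k, (1 + dd j * t)) * HH π ((1 / 2) ^ k * t) := by
  induction k with
  | zero => simp
  | succ k ih =>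
    rw [ih, prod_range_succ]
    have h := funeq hπ (1 + (1 / 2) ^ k * t)
    have h2 : HH π ((1 / 2) ^ k * t) = (1 + dd k * t) * HH π ((1 / 2) ^ (k + 1) * t) := by
      unfold HH
      rw [h]
      have e1 : (1 + 9 / 20 * (1 + (1 / 2) ^ k * t - 1) : ℂ) = 1 + dd k * t := by
        unfold dd
        rw [pow_succ]
        ring
      have e2 : (1 + (1 + (1 / 2) ^ k * t - 1) / 2 : ℂ) = 1 + (1 / 2) ^ (k + 1) * t := by
        rw [pow_succ]
        ring
      rw [e1, e2]
    rw [h2]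
    ring

/-- The cofactor of `1 + d_k t` in `H`. -/
noncomputable def MM (π : ℕ × ℕ → ℝ) (k : ℕ) (t : ℂ) : ℂ :=
  (∏ j ∈ range k, (1 + dd j * t)) * HH π ((1 / 2) ^ (k + 1) * t)

theorem HH_eq (hπ : IsStationary (9 / 10) (1 / 2) π) (t : ℂ) (k : ℕ) :
    HH π t = (1 + dd k * t) * MM π k t := by
  rw [HH_iter hπ t (k + 1), prod_range_succ]
  unfold MM
  ring

theorem HH_cont (hπ : IsStationary (9 / 10) (1 / 2) π) : Continuous (HH π) := by
  have := (genFun_differentiable hπ (z := 1) (by simp)).continuous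
  unfold HH
  fun_prop

theorem MM_cont (hπ : IsStationary (9 / 10) (1 / 2) π) (k : ℕ) : Continuous (MM π k) := by
  have := HH_cont hπ
  unfold MM
  fun_prop

theorem MM_ne (hπ : IsStationary (9 / 10) (1 / 2) π) (k : ℕ) : MM π k (-1 / dd k) ≠ 0 := by
  unfold MM
  refine mul_ne_zero (prod_ne_zero_iff.2 fun j hj => ?_) ?_
  · have hj' : j < k := mem_range.1 hj
    have e : dd j * (-1 / dd k) = -(2 : ℂ) ^ (k - j) := by
      have h1 : dd j = (2 : ℂ) ^ (k - j) * dd k := by
        unfold dd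
        have h2 : k + 1 = (k - j) + (j + 1) := by omega
        have h3 : (1 / 2 : ℂ) ^ (k + 1) = (1 / 2) ^ (k - j) * (1 / 2) ^ (j + 1) := by
          rw [← pow_add, ← h2]
        have h4 : (2 : ℂ) ^ (k - j) * (1 / 2) ^ (k - j) = 1 := by
          rw [← mul_pow]; norm_num
        rw [h3]
        linear_combination (-(9 / 10) * (1 / 2) ^ (j + 1)) * h4
      rw [h1]
      field_simp [dd_ne k]
    rw [e]
    have h3 : (2 : ℂ) ^ (k - j) = ((2 ^ (k - j) : ℕ) : ℂ) := by push_cast; rfl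
    rw [h3]
    intro h4
    have h5 : (1 : ℂ) = ((2 ^ (k - j) : ℕ) : ℂ) := by linear_combination h4
    have h6 : 1 = 2 ^ (k - j) := by exact_mod_cast h5
    have h7 : 1 < 2 ^ (k - j) := Nat.one_lt_two_pow (by omega)
    omega
  · have e : (1 / 2 : ℂ) ^ (k + 1) * (-1 / dd k) = -10 / 9 := by
      unfold dd
      field_simp
    rw [e]
    have h1 : HH π (-10 / 9) = 1 / 2 * HH π (-5 / 9) := by
      have h2 := HH_iter hπ (-10 / 9) 1
      rw [h2]
      simp only [range_one, prod_singleton, dd]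
      norm_num
    rw [h1]
    refine mul_ne_zero (by norm_num) ?_
    have h2 : HH π (-5 / 9) = ((∑' s : ℕ × ℕ, π s * (4 / 9) ^ s.2 : ℝ) : ℂ) := by
      unfold HH genFun
      rw [Complex.ofReal_tsum]
      refine tsum_congr fun s => ?_
      push_cast
      norm_num
    rw [h2, Complex.ofReal_ne_zero]
    have hs : Summable fun s : ℕ × ℕ => π s * (4 / 9 : ℝ) ^ s.2 := by
      refine summable_of_bdd hπ (B := 1) fun s => ?_
      rw [abs_of_nonneg (by positivity)]
      exact pow_le_one₀ (by norm_num) (by norm_num)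
    obtain ⟨s0, hs0⟩ : ∃ s, 0 < π s := by
      by_contra hcon
      push Not at hcon
      have h3 : π = fun _ => 0 := funext fun s => le_antisymm (hcon s) (hπ.nonneg s)
      have h4 := hπ.total
      rw [h3] at h4
      exact absurd (h4.unique hasSum_zero) one_ne_zero
    exact (hs.tsum_pos (fun s => mul_nonneg (hπ.nonneg s) (by positivity)) s0
      (by positivity)).ne'

/-! ### Divided differences -/

/-- The divided difference of `P(x, ·)`. -/
noncomputable def DD (π : ℕ × ℕ → ℝ) (x a b : ℂ) : ℂ :=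
  ∑' s : ℕ × ℕ, (π s : ℂ) * x ^ s.1 * ∑ i ∈ range s.2, a ^ i * b ^ (s.2 - 1 - i)

theorem DD_bound (hπ : IsStationary (9 / 10) (1 / 2) π) {x a b : ℂ} {R : ℝ} (hR : 1 ≤ R)
    (hx : ‖x‖ ≤ 1) (ha : ‖a‖ ≤ R) (hb : ‖b‖ ≤ R) (s : ℕ × ℕ) :
    ‖(π s : ℂ) * x ^ s.1 * ∑ i ∈ range s.2, a ^ i * b ^ (s.2 - 1 - i)‖ ≤ π s * (2 * R) ^ s.2 := by
  rw [norm_mul, norm_mul, norm_pow, Complex.norm_real, Real.norm_eq_abs,
    abs_of_nonneg (hπ.nonneg s)]
  have h1 : ‖x‖ ^ s.1 ≤ 1 := pow_le_one₀ (norm_nonneg _) hx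
  have h3 := hπ.nonneg s
  have h4 : π s * ‖x‖ ^ s.1 ≤ π s := by nlinarith
  have h2 : ‖∑ i ∈ range s.2, a ^ i * b ^ (s.2 - 1 - i)‖ ≤ (2 * R) ^ s.2 := by
    refine (norm_sum_le _ _).trans ?_
    have h5 : ∀ i ∈ range s.2, ‖a ^ i * b ^ (s.2 - 1 - i)‖ ≤ R ^ s.2 := by
      intro i hi
      have hi' := mem_range.1 hi
      rw [norm_mul, norm_pow, norm_pow]
      calc ‖a‖ ^ i * ‖b‖ ^ (s.2 - 1 - i) ≤ R ^ i * R ^ (s.2 - 1 - i) :=
            mul_le_mul (pow_le_pow_left₀ (norm_nonneg _) ha _)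
              (pow_le_pow_left₀ (norm_nonneg _) hb _) (by positivity) (by positivity)
        _ = R ^ (s.2 - 1) := by rw [← pow_add]; congr 1; omega
        _ ≤ R ^ s.2 := pow_le_pow_right₀ hR (by omega)
    refine (sum_le_card_nsmul _ _ _ h5).trans ?_
    rw [card_range, nsmul_eq_mul, mul_pow]
    refine mul_le_mul_of_nonneg_right ?_ (by positivity)
    exact_mod_cast (Nat.lt_two_pow_self (n := s.2)).le
  exact mul_le_mul h4 h2 (norm_nonneg _) h3

theorem DD_mul (hπ : IsStationary (9 / 10) (1 / 2) π) {x a b : ℂ} (hx : ‖x‖ ≤ 1) :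
    DD π x a b * (a - b) = genFun π x a - genFun π x b := by
  unfold DD genFun
  rw [← Summable.tsum_sub (summable_term hπ hx) (summable_term hπ hx), ← tsum_mul_right]
  refine tsum_congr fun s => ?_
  rw [mul_assoc, geom_sum₂_mul]
  ring

theorem DD_tendsto (hπ : IsStationary (9 / 10) (1 / 2) π) {ι : Type*} {F : Filter ι}
    {x a b : ι → ℂ} {x0 a0 b0 : ℂ} (hx1 : ∀ᶠ i in F, ‖x i‖ ≤ 1) (hx : Tendsto x F (𝓝 x0))
    (ha : Tendsto a F (𝓝 a0)) (hb : Tendsto b F (𝓝 b0)) :
    Tendsto (fun i => DD π (x i) (a i) (b i)) F (𝓝 (DD π x0 a0 b0)) := by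
  set R : ℝ := ‖a0‖ + ‖b0‖ + 2 with hR
  have hR1 : 1 ≤ R := by
    have := norm_nonneg a0
    have := norm_nonneg b0
    linarith
  unfold DD
  refine tendsto_tsum_of_dominated_convergence (bound := fun s : ℕ × ℕ => π s * (2 * R) ^ s.2)
    (expm hπ (2 * R) (by linarith)) (fun s => ?_) ?_
  · refine ((hx.pow _).const_mul _).mul (tendsto_finsetSum _ fun i _ => ?_)
    exact (ha.pow _).mul (hb.pow _)
  · have h1 : ∀ᶠ i in F, ‖a i‖ < R := ha.norm.eventually (gt_mem_nhds (by
      have := norm_nonneg b0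
      linarith))
    have h2 : ∀ᶠ i in F, ‖b i‖ < R := hb.norm.eventually (gt_mem_nhds (by
      have := norm_nonneg a0
      linarith))
    filter_upwards [hx1, h1, h2] with i h3 h4 h5 s
    exact DD_bound hπ hR1 h3 h4.le h5.le s

theorem DD_ne (hπ : IsStationary (9 / 10) (1 / 2) π) (k : ℕ) :
    DD π 1 (1 - 1 / dd k) (1 - 1 / dd k) ≠ 0 := by
  set y0 : ℂ := 1 - 1 / dd k with hy0
  have hseq : Tendsto (fun m : ℕ => y0 + 1 / ((m : ℂ) + 1)) atTop (𝓝 y0) := by
    have := (tendsto_one_div_add_atTop_nhds_zero_nat (𝕜 := ℂ)).const_add y0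
    simpa using this
  have h1 : Tendsto (fun m : ℕ => DD π 1 (y0 + 1 / ((m : ℂ) + 1)) y0) atTop
      (𝓝 (DD π 1 y0 y0)) :=
    DD_tendsto hπ (Eventually.of_forall fun _ => by simp) tendsto_const_nhds hseq
      tendsto_const_nhds
  have h2 : ∀ m : ℕ, DD π 1 (y0 + 1 / ((m : ℂ) + 1)) y0 =
      dd k * MM π k (y0 + 1 / ((m : ℂ) + 1) - 1) := by
    intro m
    have hm : (m : ℂ) + 1 ≠ 0 := by exact_mod_cast Nat.succ_ne_zero m
    have h3 := DD_mul hπ (x := 1) (a := y0 + 1 / ((m : ℂ) + 1)) (b := y0) (by simp)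
    have h4 : ∀ y : ℂ, genFun π 1 y = dd k * (y - y0) * MM π k (y - 1) := by
      intro y
      have h5 := HH_eq hπ (y - 1) k
      unfold HH at h5
      rw [add_sub_cancel] at h5
      rw [h5, hy0]
      congr 1
      field_simp [dd_ne k]
      ring
    rw [h4, h4 y0, sub_self, mul_zero, zero_mul, sub_zero] at h3
    have h6 : y0 + 1 / ((m : ℂ) + 1) - y0 ≠ 0 := by
      rw [add_sub_cancel_left]
      exact one_div_ne_zero hm
    apply mul_right_cancel₀ h6
    rw [h3]
    ring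
  have h3 : Tendsto (fun m : ℕ => dd k * MM π k (y0 + 1 / ((m : ℂ) + 1) - 1)) atTop
      (𝓝 (dd k * MM π k (y0 - 1))) :=
    (((MM_cont hπ k).tendsto _).comp (hseq.sub_const 1)).const_mul _
  have h4 := tendsto_nhds_unique (h1.congr h2) h3
  rw [h4]
  refine mul_ne_zero (dd_ne k) ?_
  have h5 : y0 - 1 = -1 / dd k := by rw [hy0]; ring
  rw [h5]
  exact MM_ne hπ k

theorem genFun_conj (x : ℝ) (a : ℂ) :
    genFun π x ((starRingEnd ℂ) a) = (starRingEnd ℂ) (genFun π x a) := by
  unfold genFun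
  rw [Complex.conj_tsum]
  refine tsum_congr fun s => ?_
  simp [Complex.conj_ofReal]

/-! ### The main argument -/

theorem no_product_form (hπ : IsStationary (9 / 10) (1 / 2) π) :
    ¬ HasProductForm (9 / 10) (1 / 2) π := by
  rintro ⟨β, hβ⟩
  have hβ' : ∀ z : ℂ, ‖z‖ ≤ 1 → ∃ S : ℕ → ℂ,
      (∀ k, Tendsto (fun J => ∑ j ∈ range J, β k (j + 1) * (z ^ (j + 1) - 1)) atTop (𝓝 (S k))) ∧
      ∀ y : ℂ, ‖y‖ ≤ 1 → Tendsto (fun K => ∏ k ∈ range K,
        ((1 - dd k * z + (1 / 2) ^ k * S k) + dd k * y)) atTop (𝓝 (genFun π z y)) := by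
    intro z hz
    obtain ⟨S, hS, -⟩ := hβ z 0 hz (by simp)
    refine ⟨S, hS, fun y hy => ?_⟩
    obtain ⟨S', hS', hprod⟩ := hβ z y hz hy
    have e : S' = S := funext fun k => tendsto_nhds_unique (hS' k) (hS k)
    rw [e] at hprod
    refine hprod.congr fun K => prod_congr rfl fun k _ => ?_
    unfold dd
    push_cast
    ring
  choose! S hS hprod using hβ'
  set c : ℕ → ℂ → ℂ := fun k z => 1 - dd k * z + (1 / 2) ^ k * S z k with hc
  -- the power series of `c k`
  have hPS : ∀ k, ∃ γ, PS γ (c k) := by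
    intro k
    have hS1 : Tendsto (fun J => ∑ j ∈ range J, β k (j + 1)) atTop (𝓝 (-S 0 k)) := by
      have h1 := (hS 0 (by simp) k).neg
      refine h1.congr fun J => ?_
      rw [← sum_neg_distrib]
      refine sum_congr rfl fun j _ => ?_
      rw [zero_pow (Nat.succ_ne_zero j)]
      ring
    refine ⟨fun j => (1 / 2) ^ k * (if j = 0 then S 0 k else β k j) +
      ((if j = 0 then 1 else 0) + (if j = 1 then -dd k else 0)), ?_⟩
    intro z hz
    have h1 : Tendsto (fun J => ∑ j ∈ range J, β k (j + 1) * z ^ (j + 1)) atTop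
        (𝓝 (S z k + -S 0 k)) := by
      refine ((hS z hz k).add hS1).congr fun J => ?_
      rw [← sum_add_distrib]
      exact sum_congr rfl fun j _ => by ring
    have h2 : Tendsto (fun J => ∑ j ∈ range (J + 2), ((1 / 2) ^ k * (if j = 0 then S 0 k else β k j) +
      ((if j = 0 then 1 else 0) + (if j = 1 then -dd k else 0))) * z ^ j) atTop
        (𝓝 (c k z)) := by
      have h3 := (((h1.comp (tendsto_add_atTop_nat 1)).const_add (S 0 k)).const_mul
        ((1 / 2 : ℂ) ^ k)).add_const (1 - dd k * z)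
      have h4 : (1 / 2 : ℂ) ^ k * (S 0 k + (S z k + -S 0 k)) + (1 - dd k * z) = c k z := by
        rw [hc]; ring
      rw [h4] at h3
      refine h3.congr fun J => ?_
      have e1 : ∑ j ∈ range (J + 2), ((1 / 2) ^ k * (if j = 0 then S 0 k else β k j) +
          ((if j = 0 then 1 else 0) + (if j = 1 then -dd k else 0))) * z ^ j =
          (1 / 2) ^ k * ∑ j ∈ range (J + 2), (if j = 0 then S 0 k else β k j) * z ^ j +
          (∑ j ∈ range (J + 2), (if j = 0 then 1 else 0) * z ^ j +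
          ∑ j ∈ range (J + 2), (if j = 1 then -dd k else 0) * z ^ j) := by
        rw [mul_sum, ← sum_add_distrib, ← sum_add_distrib]
        exact sum_congr rfl fun j _ => by ring
      have e2 : ∑ j ∈ range (J + 2), (if j = 0 then (1 : ℂ) else 0) * z ^ j = 1 := by
        rw [sum_eq_single 0]
        · simp
        · intro j _ hj; simp [hj]
        · intro h; exact absurd (mem_range.2 (by omega)) h
      have e3 : ∑ j ∈ range (J + 2), (if j = 1 then -dd k else 0) * z ^ j = -dd k * z := by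
        rw [sum_eq_single 1]
        · simp
        · intro j _ hj; simp [hj]
        · intro h; exact absurd (mem_range.2 (by omega)) h
      have e4 : ∑ j ∈ range (J + 2), (if j = 0 then S 0 k else β k j) * z ^ j =
          S 0 k + ∑ j ∈ range (J + 1), β k (j + 1) * z ^ (j + 1) := by
        rw [sum_range_succ']
        simp only [Nat.add_eq_zero_iff, one_ne_zero, and_false, if_false, if_true, pow_zero,
          mul_one]
        ring
      rw [e1, e2, e3, e4]
      simp only [Function.comp]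
      ring
    exact (tendsto_add_atTop_iff_nat 2).1 h2
  -- values at `1`
  have hc1 : ∀ k, c k 1 = 1 - dd k := by
    intro k
    have h1 := hS 1 (by simp) k
    have h2 : S 1 k = 0 := by
      refine tendsto_nhds_unique h1 ?_
      simp
    rw [hc]
    dsimp only
    rw [h2]
    ring
  -- `c k x` is real near `1`
  have hdsum : Summable fun k => ‖dd k‖ := by
    have h1 : ∀ k, ‖dd k‖ = 9 / 20 * (1 / 2) ^ k := by
      intro k
      unfold dd
      rw [norm_mul, norm_pow, pow_succ]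
      norm_num
      ring
    simp_rw [h1]
    exact (summable_geometric_of_lt_one (by norm_num) (by norm_num)).mul_left _
  have hreal : ∀ k, ∀ᶠ x : ℝ in 𝓝[<] 1, (starRingEnd ℂ) (c k x) = c k x := by
    intro k
    obtain ⟨γ, hγ⟩ := hPS k
    have habel := hγ.abel
    rw [hc1] at habel
    set a : ℝ → ℂ := fun x => -c k x / dd k with ha
    have hdR : (starRingEnd ℂ) (dd k) = dd k := by
      rw [dd_real, Complex.conj_ofReal]
    have hlim : Tendsto a (𝓝[<] 1) (𝓝 (1 - 1 / dd k)) := by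
      have h1 := (habel.neg).div_const (dd k)
      have e : -(1 - dd k) / dd k = 1 - 1 / dd k := by
        field_simp [dd_ne k]
        ring
      rwa [e] at h1
    have hlim2 : Tendsto (fun x => (starRingEnd ℂ) (a x)) (𝓝[<] 1) (𝓝 (1 - 1 / dd k)) := by
      have h1 := (Complex.continuous_conj.tendsto _).comp hlim
      have e : (starRingEnd ℂ) (1 - 1 / dd k) = 1 - 1 / dd k := by
        rw [map_sub, map_div₀, hdR, map_one]
      rwa [e] at h1
    have hin : ∀ᶠ x : ℝ in 𝓝[<] 1, x ∈ Set.Ioo (0 : ℝ) 1 := Ioo_mem_nhdsLT (by norm_num)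
    have hx1 : ∀ᶠ x : ℝ in 𝓝[<] 1, ‖(x : ℂ)‖ ≤ 1 := by
      filter_upwards [hin] with x hx
      rw [Complex.norm_real, Real.norm_eq_abs, abs_of_pos hx.1]
      exact hx.2.le
    have hxlim : Tendsto (fun x : ℝ => (x : ℂ)) (𝓝[<] 1) (𝓝 1) := by
      have := (Complex.continuous_ofReal.tendsto (1 : ℝ)).mono_left
        (nhdsWithin_le_nhds (s := Set.Iio 1))
      simpa using this
    have hD := DD_tendsto hπ hx1 hxlim hlim hlim2
    have hDne : ∀ᶠ x : ℝ in 𝓝[<] 1, DD π x (a x) ((starRingEnd ℂ) (a x)) ≠ 0 :=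
      hD.eventually_ne (DD_ne hπ k)
    filter_upwards [hin, hx1, hDne] with x hx hx1 hne
    -- the zero
    have hF1 : genFun π x 1 ≠ 0 := by
      have e : genFun π x 1 = ((∑' s : ℕ × ℕ, π s * x ^ s.1 : ℝ) : ℂ) := by
        unfold genFun
        rw [Complex.ofReal_tsum]
        refine tsum_congr fun s => ?_
        push_cast
        simp
      rw [e, Complex.ofReal_ne_zero]
      have hs : Summable fun s : ℕ × ℕ => π s * x ^ s.1 := by
        refine summable_of_bdd hπ (B := 1) fun s => ?_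
        rw [abs_of_nonneg (pow_nonneg hx.1.le _)]
        exact pow_le_one₀ hx.1.le hx.2.le
      obtain ⟨s0, hs0⟩ : ∃ s, 0 < π s := by
        by_contra hcon
        push Not at hcon
        have h3 : π = fun _ => 0 := funext fun s => le_antisymm (hcon s) (hπ.nonneg s)
        have h4 := hπ.total
        rw [h3] at h4
        exact absurd (h4.unique hasSum_zero) one_ne_zero
      exact (hs.tsum_pos (fun s => mul_nonneg (hπ.nonneg s) (pow_nonneg hx.1.le _)) s0
        (mul_pos hs0 (pow_pos hx.1 _))).ne'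
    have hzero : genFun π x (a x) = 0 :=
      zero_of_product (genFun_differentiable hπ hx1) hF1 hdsum dd_ne
        (fun y hy => hprod x hx1 y hy) k
    have hzero2 : genFun π x ((starRingEnd ℂ) (a x)) = 0 := by
      rw [genFun_conj, hzero, map_zero]
    have h1 := DD_mul hπ (a := a x) (b := (starRingEnd ℂ) (a x)) hx1
    rw [hzero, hzero2, sub_zero] at h1
    have h2 : a x - (starRingEnd ℂ) (a x) = 0 := (mul_eq_zero.1 h1).resolve_left hne
    have h3 : (starRingEnd ℂ) (a x) = a x := (sub_eq_zero.1 h2).symm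
    rw [ha] at h3
    dsimp only at h3
    rw [map_div₀, hdR, map_neg] at h3
    have h4 := mul_right_cancel₀ (inv_ne_zero (dd_ne k)) (by simpa only [div_eq_mul_inv] using h3)
    exact neg_injective h4
  have hcm : ∀ k, ((c k (-1)).re : ℂ) = c k (-1) := by
    intro k
    obtain ⟨γ, hγ⟩ := hPS k
    exact Complex.conj_eq_iff_re.1 (hγ.real_neg_one (hreal k))
  -- the inequality between the absolute values
  have hineq : ‖genFun π (-1) (1 / 2)‖ ≤ ‖genFun π (-1) ww‖ := by
    have h1 := (hprod (-1) (by simp) (1 / 2) (by norm_num)).norm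
    have h2 := (hprod (-1) (by simp) ww norm_ww).norm
    refine le_of_tendsto_of_tendsto' h1 h2 fun K => ?_
    rw [norm_prod, norm_prod]
    refine prod_le_prod (fun _ _ => norm_nonneg _) fun k _ => ?_
    have e1 : (1 - dd k * (-1) + (1 / 2) ^ k * S (-1) k) = ((c k (-1)).re : ℂ) := by
      rw [hcm]
    rw [e1]
    rw [dd_real]
    set d : ℝ := 9 / 10 * (1 / 2) ^ (k + 1)
    have e3 : ((c k (-1)).re : ℂ) + (d : ℂ) * (1 / 2) = (((c k (-1)).re + d / 2 : ℝ) : ℂ) := by
      push_cast; ring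
    rw [e3, Complex.norm_real, Real.norm_eq_abs]
    have e4 : (((c k (-1)).re : ℂ) + (d : ℂ) * ww).re = (c k (-1)).re + d / 2 := by
      have : ww.re = 1 / 2 := by
        have := ww_pow 1 (by norm_num)
        rw [pow_one] at this
        rw [this]
        norm_num [reL]
      rw [Complex.add_re, Complex.ofReal_re, Complex.re_ofReal_mul, this]
      ring
    rw [← e4]
    exact Complex.abs_re_le_norm _
  have h1 := value_half hπ
  have h2 := value_ww hπ
  linarith

end Pool.Agent.R667.LA
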