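import Pool.Agent.R667.LA.Defs

/-!
# Moments of the stationary distribution
-/

open Finset Filter Topology

namespace Pool.Agent.R667.LA

variable {ρ q : ℝ} {π : ℕ × ℕ → ℝ}

theorem KK_mono (hρ0 : 0 ≤ ρ) (hρ1 : ρ ≤ 1) (hq0 : 0 ≤ q) (hq1 : q ≤ 1) {f g : ℕ × ℕ → ℝ}
    (h : ∀ s, f s ≤ g s) (s : ℕ × ℕ) : KK ρ q f s ≤ KK ρ q g s := by
  refine sum_le_sum fun e _ => sum_le_sum fun m _ => ?_
  exact mul_le_mul_of_nonneg_left (h _) (weight_nonneg hρ0 hρ1 hq0 hq1 _ _ _)

theorem KK_const (c : ℝ) (s : ℕ × ℕ) : KK ρ q (fun _ => c) s = c := by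
  have := KK_total (ρ := ρ) (q := q) (fun _ => c) s
  rw [this]; ring

theorem KK_powR (R : ℝ) (s : ℕ × ℕ) :
    KK ρ q (fun s => R ^ s.2) s = (1 + ρ * q * (R - 1)) * (1 + q * (R - 1)) ^ s.2 := by
  have h := KK_pow (ρ := ρ) (q := q) (R : ℂ) s
  have h2 : ((KK ρ q (fun s => R ^ s.2) s : ℝ) : ℂ) = KK ρ q (fun s => (R : ℂ) ^ s.2) s := by
    simp [KK]
  apply Complex.ofReal_injective
  rw [h2, h]
  push_cast
  ring

theorem summable_of_bdd (hπ : IsStationary ρ q π) {f : ℕ × ℕ → ℝ} {B : ℝ}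
    (hB : ∀ s, |f s| ≤ B) : Summable fun s => π s * f s := by
  refine Summable.of_norm_bounded (g := fun s => π s * B) (hπ.total.summable.mul_right B) ?_
  intro s
  rw [norm_mul, Real.norm_eq_abs, Real.norm_eq_abs, abs_of_nonneg (hπ.nonneg s)]
  exact mul_le_mul_of_nonneg_left (hB s) (hπ.nonneg s)

theorem test_bdd (hρ0 : 0 ≤ ρ) (hρ1 : ρ ≤ 1) (hq0 : 0 ≤ q) (hq1 : q ≤ 1)
    (hπ : IsStationary ρ q π) {f : ℕ × ℕ → ℝ} {B : ℝ} (hB : ∀ s, |f s| ≤ B) :
    Summable (fun s => π s * KK ρ q f s) ∧ ∑' s, π s * KK ρ q f s = ∑' s, π s * f s := by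
  refine hπ.test hρ0 hρ1 hq0 hq1 f ?_
  exact summable_of_bdd hπ (f := fun s => ‖f s‖) (B := B) (fun s => by simpa using hB s)

/-- drift of `R ^ l` -/
theorem exists_drift (hρ0 : 0 ≤ ρ) (hq0 : 0 ≤ q) (hq1 : q < 1) (R : ℝ) (hR : 1 < R) :
    ∃ C : ℝ, 0 ≤ C ∧ ∀ l : ℕ, (1 + ρ * q * (R - 1)) * (1 + q * (R - 1)) ^ l ≤ R ^ l / 2 + C := by
  set A := 1 + ρ * q * (R - 1) with hA
  set x := 1 + q * (R - 1) with hx
  have hA0 : 0 < A := by
    have : 0 ≤ ρ * q * (R - 1) := by
      have : 0 ≤ R - 1 := by linarith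
      positivity
    linarith
  have hx1 : 1 ≤ x := by
    have : 0 ≤ q * (R - 1) := mul_nonneg hq0 (by linarith)
    linarith
  have hxR : x < R := by nlinarith
  have hlim : Tendsto (fun l : ℕ => A * (x / R) ^ l) atTop (𝓝 (A * 0)) :=
    (tendsto_pow_atTop_nhds_zero_of_lt_one (by positivity)
      ((div_lt_one (by linarith)).2 hxR)).const_mul A
  rw [mul_zero] at hlim
  obtain ⟨l0, hl0⟩ := (hlim.eventually (gt_mem_nhds (show (0 : ℝ) < 1 / 2 by norm_num))).exists_forall_of_atTop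
  refine ⟨A * x ^ l0, by positivity, fun l => ?_⟩
  have hRl : 0 < R ^ l := by positivity
  rcases le_or_gt l0 l with h | h
  · have h1 := hl0 l h
    rw [div_pow, mul_div_assoc', div_lt_iff₀ hRl] at h1
    have : 0 ≤ A * x ^ l0 := by positivity
    linarith
  · have h1 : A * x ^ l ≤ A * x ^ l0 :=
      mul_le_mul_of_nonneg_left (pow_le_pow_right₀ hx1 h.le) hA0.le
    linarith

theorem exp_moment (hρ0 : 0 ≤ ρ) (hρ1 : ρ ≤ 1) (hq0 : 0 ≤ q) (hq1 : q < 1)
    (hπ : IsStationary ρ q π) (R : ℝ) (hR : 1 < R) : Summable fun s => π s * R ^ s.2 := by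
  obtain ⟨C, hC, hdrift⟩ := exists_drift hρ0 hq0 hq1 R hR
  have hV : ∀ s : ℕ × ℕ, 0 < R ^ s.2 := fun s => by positivity
  have hbd : ∀ M : ℝ, 0 ≤ M → ∀ s : ℕ × ℕ, |min (R ^ s.2) M| ≤ M := by
    intro M hM s
    rw [abs_of_nonneg (le_min (hV s).le hM)]
    exact min_le_right _ _
  set a : ℝ → ℝ := fun M => ∑' s : ℕ × ℕ, π s * min (R ^ s.2) M with ha
  have step : ∀ M, 0 ≤ M → a M ≤ a (2 * M) / 2 + C := by
    intro M hM
    have h1 := test_bdd hρ0 hρ1 hq0 hq1.le hπ (hbd M hM)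
    have h2 : ∀ s, KK ρ q (fun s => min (R ^ s.2) M) s ≤ min (R ^ s.2) (2 * M) / 2 + C := by
      intro s
      have h3 : KK ρ q (fun s => min (R ^ s.2) M) s ≤ KK ρ q (fun s => R ^ s.2) s :=
        KK_mono hρ0 hρ1 hq0 hq1.le (fun s => min_le_left _ _) s
      have h4 : KK ρ q (fun s => min (R ^ s.2) M) s ≤ KK ρ q (fun _ => M) s :=
        KK_mono hρ0 hρ1 hq0 hq1.le (fun s => min_le_right _ _) s
      rw [KK_const] at h4
      rw [KK_powR] at h3
      have h5 := hdrift s.2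
      rcases min_cases (R ^ s.2) (2 * M) with ⟨h6, -⟩ | ⟨h6, -⟩ <;> rw [h6] <;> linarith
    have h5 : Summable fun s => π s * (min (R ^ s.2) (2 * M) / 2 + C) := by
      refine summable_of_bdd hπ (B := 2 * M + C) fun s => ?_
      have := hbd (2 * M) (by linarith) s
      have h7 : 0 ≤ min (R ^ s.2) (2 * M) := le_min (hV s).le (by linarith)
      rw [abs_of_nonneg h7] at this
      rw [abs_of_nonneg (by positivity)]
      linarith
    have h6 : a M ≤ ∑' s, π s * (min (R ^ s.2) (2 * M) / 2 + C) := by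
      rw [ha]
      dsimp only
      rw [← h1.2]
      exact h1.1.tsum_le_tsum (fun s => mul_le_mul_of_nonneg_left (h2 s) (hπ.nonneg s)) h5
    have h7 : ∑' s, π s * (min (R ^ s.2) (2 * M) / 2 + C) = a (2 * M) / 2 + C := by
      have h8 : (fun s => π s * (min (R ^ s.2) (2 * M) / 2 + C)) =
          fun s => (π s * min (R ^ s.2) (2 * M)) / 2 + π s * C := by
        funext s; ring
      rw [h8, Summable.tsum_add, tsum_div_const, tsum_mul_right, hπ.total.tsum_eq, one_mul]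
      · exact (summable_of_bdd hπ (hbd (2 * M) (by linarith))).div_const 2
      · exact hπ.total.summable.mul_right C
    linarith
  have iter : ∀ (m : ℕ) (M : ℝ), 0 ≤ M → a M ≤ a (2 ^ m * M) / 2 ^ m + 2 * C := by
    intro m
    induction m with
    | zero => intro M hM; simp; linarith
    | succ m ih =>
      intro M hM
      have h1 := step M hM
      have h2 := ih (2 * M) (by linarith)
      have h3 : (2 : ℝ) ^ m * (2 * M) = 2 ^ (m + 1) * M := by ring
      rw [h3] at h2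
      have h4 : a (2 ^ (m + 1) * M) / 2 ^ (m + 1) = a (2 ^ (m + 1) * M) / 2 ^ m / 2 := by
        rw [pow_succ, div_div]
      rw [h4]
      have h5 : a M ≤ (a (2 ^ (m + 1) * M) / 2 ^ m + 2 * C) / 2 + C := by
        refine h1.trans ?_
        have := div_le_div_of_nonneg_right h2 (zero_le_two (α := ℝ))
        linarith
      linarith
  have bound : ∀ M, 0 ≤ M → a M ≤ 2 * C := by
    intro M hM
    have hlim : Tendsto (fun m : ℕ => a (2 ^ m * M) / 2 ^ m) atTop (𝓝 0) := by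
      have h1 : (fun m : ℕ => a (2 ^ m * M) / 2 ^ m) =
          fun m : ℕ => ∑' s, π s * min (R ^ s.2 * (1 / 2) ^ m) M := by
        funext m
        rw [ha]
        dsimp only
        rw [← tsum_div_const]
        refine tsum_congr fun s => ?_
        rw [mul_div_assoc, ← min_div_div_right (by positivity)]
        congr 2
        · rw [one_div, inv_pow]; rfl
        · field_simp
      rw [h1]
      have h2 := tendsto_tsum_of_dominated_convergence (𝓕 := (atTop : Filter ℕ))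
        (f := fun m s => π s * min (R ^ s.2 * (1 / 2) ^ m) M) (g := fun _ : ℕ × ℕ => (0 : ℝ))
        (bound := fun s => π s * M) (hπ.total.summable.mul_right M) ?_ ?_
      · simpa using h2
      · intro s
        have h3 : Tendsto (fun m : ℕ => R ^ s.2 * (1 / 2 : ℝ) ^ m) atTop (𝓝 (R ^ s.2 * 0)) :=
          (tendsto_pow_atTop_nhds_zero_of_lt_one (by norm_num) (by norm_num)).const_mul _
        have h4 := (h3.min (tendsto_const_nhds (x := M))).const_mul (π s)
        rw [mul_zero, min_eq_left hM, mul_zero] at h4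
        exact h4
      · refine Eventually.of_forall fun m s => ?_
        have h5 : 0 ≤ min (R ^ s.2 * (1 / 2 : ℝ) ^ m) M := le_min (by positivity) hM
        rw [norm_mul, Real.norm_eq_abs, Real.norm_eq_abs, abs_of_nonneg (hπ.nonneg s),
          abs_of_nonneg h5]
        exact mul_le_mul_of_nonneg_left (min_le_right _ _) (hπ.nonneg s)
    have h6 : Tendsto (fun m : ℕ => a (2 ^ m * M) / 2 ^ m + 2 * C) atTop (𝓝 (0 + 2 * C)) :=
      hlim.add_const _
    rw [zero_add] at h6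
    exact ge_of_tendsto' h6 fun m => iter m M hM
  refine summable_of_sum_le (c := 2 * C) (fun s => mul_nonneg (hπ.nonneg s) (hV s).le) ?_
  intro F
  obtain ⟨M, hM⟩ : ∃ M : ℝ, ∀ s ∈ F, R ^ s.2 ≤ M := by
    refine ⟨∑ s ∈ F, R ^ s.2, fun s hs => ?_⟩
    exact single_le_sum (f := fun s : ℕ × ℕ => R ^ s.2) (fun s _ => (hV s).le) hs
  have hM0 : 0 ≤ max M 0 := le_max_right _ _
  calc ∑ s ∈ F, π s * R ^ s.2 = ∑ s ∈ F, π s * min (R ^ s.2) (max M 0) := by
        refine sum_congr rfl fun s hs => ?_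
        rw [min_eq_left ((hM s hs).trans (le_max_left _ _))]
    _ ≤ a (max M 0) := by
        refine (summable_of_bdd hπ (hbd _ hM0)).sum_le_tsum F fun s _ => ?_
        exact mul_nonneg (hπ.nonneg s) (le_min (hV s).le hM0)
    _ ≤ 2 * C := bound _ hM0

end Pool.Agent.R667.LA
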