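import Pool.Agent.R667.LA.Mom

/-!
# Tails of the stationary distribution for `ρ = 9/10`, `q = 1/2`
-/

open Finset Filter Topology

namespace Pool.Agent.R667.LA

variable {π : ℕ × ℕ → ℝ}

theorem choose_le (l k : ℕ) : (l.choose k : ℝ) ≤ 2 ^ l := by
  have := Nat.choose_le_two_pow l k
  exact_mod_cast this

theorem summable_choose (hπ : IsStationary (9 / 10) (1 / 2) π) (k : ℕ) :
    Summable fun s => π s * (s.2.choose k : ℝ) := by
  refine Summable.of_nonneg_of_le (fun s => mul_nonneg (hπ.nonneg s) (Nat.cast_nonneg _))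
    (fun s => mul_le_mul_of_nonneg_left (choose_le _ _) (hπ.nonneg s))
    (exp_moment (by norm_num) (by norm_num) (by norm_num) (by norm_num) hπ 2 (by norm_num))

/-- binomial moments -/
noncomputable def bmom (π : ℕ × ℕ → ℝ) (k : ℕ) : ℝ := ∑' s, π s * (s.2.choose k : ℝ)

theorem bmom_zero (hπ : IsStationary (9 / 10) (1 / 2) π) : bmom π 0 = 1 := by
  unfold bmom
  simp only [Nat.choose_zero_right, Nat.cast_one, mul_one]
  exact hπ.total.tsum_eq

theorem bmom_succ (hπ : IsStationary (9 / 10) (1 / 2) π) (k : ℕ) :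
    bmom π (k + 1) = (1 / 2) ^ (k + 1) * (bmom π (k + 1) + 9 / 10 * bmom π k) := by
  have h := hπ.test (E := ℝ) (by norm_num) (by norm_num) (by norm_num) (by norm_num)
    (fun s => (s.2.choose (k + 1) : ℝ)) (by
      have := summable_choose hπ (k + 1)
      simpa using this)
  have h2 := h.2
  simp only [smul_eq_mul] at h2
  have h3 : (fun s => π s * KK (9 / 10) (1 / 2) (fun s => (s.2.choose (k + 1) : ℝ)) s) =
      fun s => (1 / 2) ^ (k + 1) * (π s * (s.2.choose (k + 1) : ℝ)) +
        (1 / 2) ^ (k + 1) * (9 / 10) * (π s * (s.2.choose k : ℝ)) := by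
    funext s
    rw [KK_choose]
    ring
  rw [h3, Summable.tsum_add ((summable_choose hπ _).mul_left _) ((summable_choose hπ _).mul_left _),
    tsum_mul_left, tsum_mul_left] at h2
  unfold bmom
  rw [← h2]
  rw [h2]
  linarith

theorem bmom_six (hπ : IsStationary (9 / 10) (1 / 2) π) : bmom π 6 ≤ 864 / 10 ^ 9 := by
  have h0 := bmom_zero hπ
  have h1 := bmom_succ hπ 0
  have h2 := bmom_succ hπ 1
  have h3 := bmom_succ hπ 2
  have h4 := bmom_succ hπ 3
  have h5 := bmom_succ hπ 4
  have h6 := bmom_succ hπ 5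
  norm_num at h1 h2 h3 h4 h5 h6 ⊢
  linarith

theorem tail_l (hπ : IsStationary (9 / 10) (1 / 2) π) :
    ∑' s : ℕ × ℕ, π s * (if 6 ≤ s.2 then 1 else 0) ≤ 864 / 10 ^ 9 := by
  refine le_trans ?_ (bmom_six hπ)
  unfold bmom
  refine Summable.tsum_le_tsum ?_ (summable_of_bdd hπ (B := 1) ?_) (summable_choose hπ 6)
  · intro s
    refine mul_le_mul_of_nonneg_left ?_ (hπ.nonneg s)
    split_ifs with h
    · have : 1 ≤ s.2.choose 6 := Nat.choose_pos h
      exact_mod_cast this
    · exact Nat.cast_nonneg _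
  · intro s
    split_ifs <;> norm_num

/-- test function for the tail of `n + l` -/
theorem tail_pos (hπ : IsStationary (9 / 10) (1 / 2) π) (M : ℕ) :
    ∑' s : ℕ × ℕ, π s * (if 0 < s.1 ∧ 7 ≤ s.1 + s.2 ∧ s.1 + s.2 ≤ 6 + M then 1 else 0) ≤
      9 * (864 / 10 ^ 9) := by
  set g : ℕ → ℝ := fun N => ((min (N - 6) M : ℕ) : ℝ) with hg
  have hB : ∀ s : ℕ × ℕ, |g (s.1 + s.2)| ≤ M := by
    intro s
    rw [abs_of_nonneg (Nat.cast_nonneg _)]
    have h : min (s.1 + s.2 - 6) M ≤ M := min_le_right _ _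
    change ((min (s.1 + s.2 - 6) M : ℕ) : ℝ) ≤ (M : ℝ)
    exact_mod_cast h
  have h := test_bdd (by norm_num) (by norm_num) (by norm_num) (by norm_num) hπ hB
  have hs := summable_of_bdd hπ hB
  set A : ℕ × ℕ → ℝ := fun s =>
    if 0 < s.1 ∧ 7 ≤ s.1 + s.2 ∧ s.1 + s.2 ≤ 6 + M then 1 else 0 with hA
  have hAs : Summable fun s => π s * A s := summable_of_bdd hπ (B := 1) fun s => by
    rw [hA]; dsimp only; split_ifs <;> norm_num
  have hls : Summable fun s : ℕ × ℕ => π s * (if 6 ≤ s.2 then (1 : ℝ) else 0) :=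
    summable_of_bdd hπ (B := 1) fun s => by split_ifs <;> norm_num
  have hpt : ∀ s, KK (9 / 10) (1 / 2) (fun s => g (s.1 + s.2)) s - g (s.1 + s.2) ≤
      9 / 10 * (if 6 ≤ s.2 then 1 else 0) - 1 / 10 * A s := by
    rintro ⟨n, l⟩
    rw [KK_total, hA]
    dsimp only
    rcases Nat.eq_zero_or_pos n with hn | hn
    · subst hn
      simp only [lt_irrefl, if_false, Nat.sub_zero, zero_add, false_and]
      by_cases h6 : 6 ≤ l
      · rw [if_pos h6]
        have : g (l + 1) ≤ g l + 1 := by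
          rw [hg]
          dsimp only
          have : min (l + 1 - 6) M ≤ min (l - 6) M + 1 := by omega
          exact_mod_cast this
        linarith
      · rw [if_neg h6]
        have e1 : g (l + 1) = g l := by
          rw [hg]
          dsimp only
          have : min (l + 1 - 6) M = min (l - 6) M := by omega
          rw [this]
        rw [e1]
        linarith
    · simp only [hn, if_true, true_and]
      have e1 : n + l + 1 - 1 = n + l := by omega
      rw [e1]
      by_cases h7 : 7 ≤ n + l ∧ n + l ≤ 6 + M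
      · rw [if_pos h7]
        have e2 : g (n + l - 1) = g (n + l) - 1 := by
          rw [hg]
          dsimp only
          have : min (n + l - 6) M = min (n + l - 1 - 6) M + 1 := by omega
          rw [this]
          push_cast
          ring
        rw [e2]
        split_ifs <;> linarith
      · rw [if_neg h7]
        have e2 : g (n + l - 1) = g (n + l) := by
          rw [hg]
          dsimp only
          have : min (n + l - 1 - 6) M = min (n + l - 6) M := by omega
          rw [this]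
        rw [e2]
        split_ifs <;> linarith
  have h1 : ∑' s, (π s * KK (9 / 10) (1 / 2) (fun s => g (s.1 + s.2)) s - π s * g (s.1 + s.2)) = 0 := by
    rw [Summable.tsum_sub h.1 hs, h.2, sub_self]
  have h2 : ∑' s, (π s * KK (9 / 10) (1 / 2) (fun s => g (s.1 + s.2)) s - π s * g (s.1 + s.2)) ≤
      ∑' s : ℕ × ℕ, (9 / 10 * (π s * (if 6 ≤ s.2 then 1 else 0)) - 1 / 10 * (π s * A s)) := by
    refine Summable.tsum_le_tsum ?_ (h.1.sub hs) ((hls.mul_left _).sub (hAs.mul_left _))
    intro s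
    have := mul_le_mul_of_nonneg_left (hpt s) (hπ.nonneg s)
    linarith
  rw [h1, Summable.tsum_sub (hls.mul_left _) (hAs.mul_left _), tsum_mul_left, tsum_mul_left] at h2
  have h3 := tail_l hπ
  linarith

theorem tail_total (hπ : IsStationary (9 / 10) (1 / 2) π) :
    ∑' s : ℕ × ℕ, π s * (if 7 ≤ s.1 + s.2 then 1 else 0) ≤ 864 / 10 ^ 8 := by
  have hpos : ∑' s : ℕ × ℕ, π s * (if 0 < s.1 ∧ 7 ≤ s.1 + s.2 then 1 else 0) ≤
      9 * (864 / 10 ^ 9) := by
    have hs : Summable fun s : ℕ × ℕ => π s * (if 0 < s.1 ∧ 7 ≤ s.1 + s.2 then (1 : ℝ) else 0) :=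
      summable_of_bdd hπ (B := 1) fun s => by split_ifs <;> norm_num
    refine hs.tsum_le_of_sum_le fun F => ?_
    obtain ⟨M, hM⟩ : ∃ M : ℕ, ∀ s ∈ F, s.1 + s.2 ≤ M :=
      ⟨∑ s ∈ F, (s.1 + s.2), fun s hs =>
        single_le_sum (f := fun s : ℕ × ℕ => s.1 + s.2) (fun s _ => Nat.zero_le _) hs⟩
    refine le_trans ?_ (tail_pos hπ M)
    have hs2 : Summable fun s : ℕ × ℕ => π s *
        (if 0 < s.1 ∧ 7 ≤ s.1 + s.2 ∧ s.1 + s.2 ≤ 6 + M then (1 : ℝ) else 0) :=
      summable_of_bdd hπ (B := 1) fun s => by split_ifs <;> norm_num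
    refine le_trans (sum_le_sum fun s hs => ?_) (hs2.sum_le_tsum F fun s _ =>
      mul_nonneg (hπ.nonneg s) (by split_ifs <;> norm_num))
    refine mul_le_mul_of_nonneg_left ?_ (hπ.nonneg s)
    have := hM s hs
    split_ifs with h1 h2 h2
    · norm_num
    · exact absurd ⟨h1.1, h1.2, by omega⟩ h2
    · norm_num
    · norm_num
  have hl := tail_l hπ
  have hs1 : Summable fun s : ℕ × ℕ => π s * (if 0 < s.1 ∧ 7 ≤ s.1 + s.2 then (1 : ℝ) else 0) :=
    summable_of_bdd hπ (B := 1) fun s => by split_ifs <;> norm_num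
  have hs2 : Summable fun s : ℕ × ℕ => π s * (if 6 ≤ s.2 then (1 : ℝ) else 0) :=
    summable_of_bdd hπ (B := 1) fun s => by split_ifs <;> norm_num
  have hs3 : Summable fun s : ℕ × ℕ => π s * (if 7 ≤ s.1 + s.2 then (1 : ℝ) else 0) :=
    summable_of_bdd hπ (B := 1) fun s => by split_ifs <;> norm_num
  have hle : ∑' s : ℕ × ℕ, π s * (if 7 ≤ s.1 + s.2 then 1 else 0) ≤
      ∑' s : ℕ × ℕ, (π s * (if 0 < s.1 ∧ 7 ≤ s.1 + s.2 then 1 else 0) +
        π s * (if 6 ≤ s.2 then 1 else 0)) := by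
    refine Summable.tsum_le_tsum (fun s => ?_) hs3 (hs1.add hs2)
    rw [← mul_add]
    refine mul_le_mul_of_nonneg_left ?_ (hπ.nonneg s)
    split_ifs with h1 h2 h3 h3 h2 h3 h3 <;> try norm_num
    omega
  rw [Summable.tsum_add hs1 hs2] at hle
  linarith

/-- The certificate lemma. -/
theorem certificate (hπ : IsStationary (9 / 10) (1 / 2) π) {h u : ℕ × ℕ → ℝ} {c B δ : ℝ}
    (hh : ∀ s, |h s| ≤ 1) (hu : ∀ s, |u s| ≤ B) (hu0 : ∀ s, 7 ≤ s.1 + s.2 → u s = 0)
    (hδ : 0 ≤ δ)
    (hsmall : ∀ s, s.1 + s.2 ≤ 6 → |h s - c - u s + KK (9 / 10) (1 / 2) u s| ≤ δ) :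
    |∑' s, π s * h s - c| ≤ δ + (1 + |c| + B) * (864 / 10 ^ 8) := by
  have hB : 0 ≤ B := (abs_nonneg _).trans (hu (0, 0))
  have h1 := test_bdd (by norm_num) (by norm_num) (by norm_num) (by norm_num) hπ hu
  have hsh := summable_of_bdd hπ hh
  have hsu := summable_of_bdd hπ hu
  have hsc : Summable fun s => π s * c := hπ.total.summable.mul_right c
  set f : ℕ × ℕ → ℝ := fun s => h s - c - u s + KK (9 / 10) (1 / 2) u s with hf
  have hKu : ∀ s, |KK (9 / 10) (1 / 2) u s| ≤ B := by
    intro s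
    rw [abs_le]
    constructor
    · have := KK_mono (ρ := 9 / 10) (q := 1 / 2) (by norm_num) (by norm_num) (by norm_num)
        (by norm_num) (f := fun _ => -B) (g := u) (fun s => (abs_le.1 (hu s)).1) s
      rwa [KK_const] at this
    · have := KK_mono (ρ := 9 / 10) (q := 1 / 2) (by norm_num) (by norm_num) (by norm_num)
        (by norm_num) (f := u) (g := fun _ => B) (fun s => (abs_le.1 (hu s)).2) s
      rwa [KK_const] at this
  have hfs : ∑' s, π s * f s = ∑' s, π s * h s - c := by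
    have e : (fun s => π s * f s) = fun s => π s * h s - π s * c - π s * u s +
        π s * KK (9 / 10) (1 / 2) u s := by
      funext s; rw [hf]; ring
    rw [e, Summable.tsum_add ((hsh.sub hsc).sub hsu) h1.1, Summable.tsum_sub (hsh.sub hsc) hsu,
      Summable.tsum_sub hsh hsc, h1.2, tsum_mul_right, hπ.total.tsum_eq]
    ring
  have hbound : ∀ s, |f s| ≤ δ + (1 + |c| + B) * (if 7 ≤ s.1 + s.2 then 1 else 0) := by
    intro s
    by_cases h7 : 7 ≤ s.1 + s.2
    · rw [if_pos h7]
      have e : f s = h s - c + KK (9 / 10) (1 / 2) u s := by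
        rw [hf]; dsimp only; rw [hu0 s h7]; ring
      rw [e]
      have h2 := abs_add_le (h s - c) (KK (9 / 10) (1 / 2) u s)
      have h3 := abs_sub (h s) c
      have := hh s
      have := hKu s
      linarith
    · rw [if_neg h7]
      have := hsmall s (by omega)
      linarith
  have hs3 : Summable fun s : ℕ × ℕ => π s * (if 7 ≤ s.1 + s.2 then (1 : ℝ) else 0) :=
    summable_of_bdd hπ (B := 1) fun s => by split_ifs <;> norm_num
  have hsf : Summable fun s => π s * f s :=
    summable_of_bdd hπ (B := δ + (1 + |c| + B)) fun s => (hbound s).trans (by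
      have : 0 ≤ |c| := abs_nonneg c
      split_ifs <;> nlinarith)
  have hdom : Summable fun s : ℕ × ℕ => π s * δ + (1 + |c| + B) *
      (π s * (if 7 ≤ s.1 + s.2 then (1 : ℝ) else 0)) :=
    (hπ.total.summable.mul_right δ).add (hs3.mul_left _)
  rw [← hfs]
  have h4 : |∑' s, π s * f s| ≤ ∑' s : ℕ × ℕ, (π s * δ + (1 + |c| + B) *
      (π s * (if 7 ≤ s.1 + s.2 then (1 : ℝ) else 0))) := by
    have := tsum_of_norm_bounded (f := fun s => π s * f s) hdom.hasSum (fun s => by
      rw [norm_mul, Real.norm_eq_abs, Real.norm_eq_abs, abs_of_nonneg (hπ.nonneg s)]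
      have := mul_le_mul_of_nonneg_left (hbound s) (hπ.nonneg s)
      linarith)
    rwa [Real.norm_eq_abs] at this
  refine h4.trans ?_
  rw [Summable.tsum_add (hπ.total.summable.mul_right δ) (hs3.mul_left _), tsum_mul_right,
    hπ.total.tsum_eq, one_mul, tsum_mul_left]
  have h5 := tail_total hπ
  have h6 : 0 ≤ 1 + |c| + B := by
    have : 0 ≤ |c| := abs_nonneg c
    linarith
  have h7 := mul_le_mul_of_nonneg_left h5 h6
  linarith

end Pool.Agent.R667.LA
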